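import Mathlib
import Pool.Agent.Y723.SJ.Def
import Pool.Agent.Helper891_JO.Ex
import Pool.Agent.Helper891_RP.Gen
import Pool.Agent.Helper891_EG.Fx
import Pool.Agent.Helper891_EG.Vc
import Pool.Agent.Helper891_EG.Gr
import Pool.Agent.Helper891_EG.La
import Pool.Agent.Helper891_EG.Pp
import Pool.Agent.Y682.XD.Fin
import Pool.Agent.Y419.XD.Ram

/-!
# All the quadratic twists, in the cyclotomic `ℤ₃`-extension, for Jacobians of every genus

`J` is the Jacobian of `y² = (x - a_0) (x - a_1) ... (x - a_{2 g})`, where `a_0 < ... < a_{2 g}` are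
integers that satisfy a condition at the real place and at the prime `2` (`Transversal`), for `a` and for
`-a`; for every genus `g` a positive proportion of the tuples `a` satisfies it. Let `J_D` be the quadratic
twist of `J` by an arbitrary `D ≠ 0`. We prove that from some layer on the groups of the points
of `J_D` and the `2`-primary parts of the Tate–Shafarevich groups do not change in the cyclotomic
`ℤ₃`-extension of `ℚ`, up to finite groups of odd order: if `E ⊆ F` are layers and the degree of `E` is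
large enough (the bound depends on `a` and `D`), then `J_D(F) / J_D(E)` is `2`-divisible, and for all the
lattices `M = ℤ^r` with an action of `Gal(F/ℚ)` such that no vector is fixed by `Gal(F/E)`, we have
`Ш(J_D ⊗ M)[2^∞] = 0` and the multiplication by `2` is bijective on `(J_D ⊗ M)(ℚ)`. Since `J_D(F)` is
finitely generated, the first group is finite of odd order. Nothing is assumed about the rank or the
Tate–Shafarevich group of `J_D`.

The bound is explicit: it is enough that, for all the primes `p ≠ 2, 3` that divide `D` or a difference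
of two of the `a_i`, the number `p² - 1` is not divisible by `9 [E:ℚ]`; then the automorphisms in
`Gal(F/E)` preserve the places of `F` above `p`. For `E = ℚ` this is a congruence modulo `9`, and we give
examples of genus `1`, ..., `6` where all the conditions hold with `E = ℚ`.
-/

set_option autoImplicit false

namespace Pool.Agent.Results.MP_a43263_nt.AllTwistsTower

open NumberField IsDedekindDomain
open Pool.Agent.Y682 (NCl)
open Pool.Agent.Y723.SJ (Jac pointMap act QB GQ)

/-! ### The abelian varieties `A = J ⊗ M` -/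

/-- The action of an integral matrix on `ℤ^r ⊗ G = G^r`. -/
def mat {G : Type} [AddCommGroup G] {r : ℕ} (B : Matrix (Fin r) (Fin r) ℤ) (P : Fin r → G) :
    Fin r → G := fun k => ∑ j, B k j • P j

section tensor

variable {g : ℕ} (a : Fin (2 * g + 1) → ℤ) {r : ℕ} (R : GQ → Matrix (Fin r) (Fin r) ℤ)

/-- The points of `A = J ⊗ M` over an algebraically closed field `L`, `J` the Jacobian of
`y² = ∏ (x - a i)` and `M = ℤ^r`. -/
abbrev Pts (r : ℕ) (L : Type) [Field L] : Type := Fin r → Jac a L

/-- The action of the Galois group on the points of `A`: `σ` applied to the coordinates, and then the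
matrix `R(σ)`, which is the action of `σ` on `M`. -/
noncomputable def actA (σ : GQ) (P : Pts a r QB) : Pts a r QB := mat (R σ) (fun k => act a σ (P k))

/-- `P` is a point of `A` over `ℚ`. -/
def IsRational (P : Pts a r QB) : Prop := ∀ σ : GQ, actA a R σ P = P

/-- `f` is a continuous cocycle with values in `A`. -/
def IsCocycle (f : GQ → Pts a r QB) : Prop :=
  IsLocallyConstant f ∧ ∀ σ τ : GQ, f (σ * τ) = f σ + actA a R σ (f τ)

/-- `f` is a coboundary. -/
def IsCoboundary (f : GQ → Pts a r QB) : Prop := ∃ P, ∀ σ, f σ = actA a R σ P - P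

/-- For every embedding `ι` of the algebraic closures the restriction of `f` to the absolute Galois
group of the completion `K` of `ℚ` is a coboundary: `f σ = τ P - P` for `τ` in this group with
restriction `σ`. -/
def LocTriv (K : Type) [Field K] (f : GQ → Pts a r QB) : Prop :=
  ∀ ι : QB →+* AlgebraicClosure K, ∃ P : Pts a r (AlgebraicClosure K),
    ∀ (τ : AlgebraicClosure K ≃ₐ[K] AlgebraicClosure K) (σ : GQ), (∀ x, τ (ι x) = ι (σ x)) →
      (fun k => pointMap a ι (f σ k)) =
        mat (R σ) (fun k => pointMap a (τ : AlgebraicClosure K →+* AlgebraicClosure K) (P k)) - P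

/-- `f` is a continuous cocycle that is trivial at all the places of `ℚ`; its class is an element of
`Ш(A)`, and this is zero if and only if `f` is a coboundary. -/
def IsShaCocycle (f : GQ → Pts a r QB) : Prop :=
  IsCocycle a R f ∧ (∀ (p : ℕ) [Fact p.Prime], LocTriv a R ℚ_[p] f) ∧ LocTriv a R ℝ f

/-- `Ш(A)[2^∞] = 0`, and the multiplication by `2` is bijective on `A(ℚ)`. -/
structure TwoTrivial : Prop where
  sha : ∀ f : GQ → Pts a r QB, IsShaCocycle a R f → ∀ k : ℕ,
    IsCoboundary a R (fun σ => 2 ^ k • f σ) → IsCoboundary a R f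
  points : ∀ P : Pts a r QB, IsRational a R P → ∃! Q : Pts a r QB, IsRational a R Q ∧ Q + Q = P

end tensor

/-! ### The curves -/

section curves

variable {g : ℕ} (a : Fin (2 * g + 1) → ℤ)

/-- `S` is a set of an even number of indices, and the numbers `a i`, `i ∈ S`, are closer to each other
at the prime `2` than to the other ones, by a factor of at least `2^5`. -/
structure Cluster (S : Finset (Fin (2 * g + 1))) : Prop where
  even : Even S.card
  near : ∀ i ∈ S, ∀ j ∈ S, ∀ l ∉ S, i ≠ j →
    padicValInt 2 (a i - a l) + 5 ≤ padicValInt 2 (a i - a j)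

/-- The sets that are obtained by symmetric differences from `{0}`, the sets `{2 k - 1, 2 k}` for
`1 ≤ k ≤ g`, and the even clusters. -/
inductive Rel : Finset (Fin (2 * g + 1)) → Prop
  | first : Rel {0}
  | pair (k : ℕ) (i j : Fin (2 * g + 1)) : (i : ℕ) = 2 * k + 1 → (j : ℕ) = 2 * k + 2 → Rel {i, j}
  | cluster (S : Finset (Fin (2 * g + 1))) : Cluster a S → Rel S
  | add (S T : Finset (Fin (2 * g + 1))) : Rel S → Rel T → Rel (symmDiff S T)

/-- All the sets are obtained. This holds for example if the graph on the set of the indices is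
connected, where the edges are the sets `{2 k - 1, 2 k}` and the clusters with two elements. -/
def Transversal : Prop := ∀ i, Rel a {i}

/-- All the clusters of the `a i` at `p` have odd cardinality and even depth: if `i ≠ l`, the valuation
of `a i - a l` is even and the number of the `k` such that `a k` is at least as close to `a i` as `a l`
is odd. (This holds if `p` divides none of the differences.) -/
def OddClusters (p : ℕ) : Prop := ∀ i l : Fin (2 * g + 1), i ≠ l →
  Even (padicValInt p (a i - a l)) ∧ Odd (Finset.univ.filter fun k =>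
    k = i ∨ padicValInt p (a i - a l) ≤ padicValInt p (a i - a k)).card

/-- The numbers `-a_{2 g} < ... < -a_0`. -/
def neg (i : Fin (2 * g + 1)) : ℤ := -a (Fin.rev i)

/-- The roots `D a_i` of the quadratic twist by `D ≠ 0`, in increasing order. -/
def twist (D : ℤ) (i : Fin (2 * g + 1)) : ℤ := if 0 < D then D * a i else D * a (Fin.rev i)

end curves

/-- The integer tuples `a_0 < ... < a_{2 g}` that satisfy the condition for the twists of both signs. -/
structure Good {g : ℕ} (a : Fin (2 * g + 1) → ℤ) : Prop where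
  mono : StrictMono a
  pos : Transversal a
  neg : Transversal (neg a)

/-! ### The fields -/

/-- `F` is a Galois extension of `ℚ` of odd degree, and its narrow class number is odd. -/
structure OddField (F : Type) [Field F] [NumberField F] : Prop where
  gal : IsGalois ℚ F
  deg : Odd (Module.finrank ℚ F)
  ncl : Odd (Nat.card (NCl F))

/-- The automorphism `γ` preserves all the places of `F` above `p`. -/
def Preserves {F : Type} [Field F] [NumberField F] (γ : F ≃ₐ[ℚ] F) (p : ℕ) : Prop :=
  ∀ v : HeightOneSpectrum (𝓞 F), (p : 𝓞 F) ∈ v.asIdeal →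
    ∀ x y : 𝓞 F, (y : F) = γ x → (y ∈ v.asIdeal ↔ x ∈ v.asIdeal)

/-- `p` is an odd prime number different from `3` and congruent to `1` or `-1` modulo `9 d`, if `d` is a
power of `3`. -/
def Near (d p : ℕ) : Prop := p.Prime ∧ p ≠ 2 ∧ p ≠ 3 ∧ 9 * d ∣ p ^ 2 - 1

/-- The automorphism `σ` of the algebraic numbers induces an element of `Γ` on the image of `F`. -/
def Over {F : Type} [Field F] [NumberField F] (i : F →+* QB) (Γ : Subgroup (F ≃ₐ[ℚ] F)) (σ : GQ) :
    Prop := ∃ γ ∈ Γ, ∀ x, σ (i x) = i (γ x)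

/-- `R` is an action of the Galois group of `ℚ` on `M = ℤ^r` that is trivial on the automorphisms which
fix the image of `F`, and only the zero vector is fixed by all the automorphisms which induce elements
of `Γ`. -/
structure Lattice {F : Type} [Field F] [NumberField F] (i : F →+* QB) (Γ : Subgroup (F ≃ₐ[ℚ] F))
    {r : ℕ} (R : GQ → Matrix (Fin r) (Fin r) ℤ) : Prop where
  mul : ∀ σ τ, R (σ * τ) = R σ * R τ
  triv : ∀ σ : GQ, (∀ x, σ (i x) = i x) → R σ = 1
  noinv : ∀ x : Fin r → ℤ, (∀ σ : GQ, Over i Γ σ → (R σ).mulVec x = x) → x = 0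

/-- Let `E` be the field of the elements of `F` that are fixed by `Γ`. For all the lattices `M` of the
field `F` without vectors fixed by `Γ`, `Ш(J ⊗ M)[2^∞] = 0` and the multiplication by `2` is bijective on
the group of the rational points of `J ⊗ M`. Moreover `J(F) = J(E) + 2 J(F)`. -/
structure Stable {F : Type} [Field F] [NumberField F] (Γ : Subgroup (F ≃ₐ[ℚ] F)) {g : ℕ}
    (a : Fin (2 * g + 1) → ℤ) : Prop where
  tensor : ∀ (i : F →+* QB) (r : ℕ) (R : GQ → Matrix (Fin r) (Fin r) ℤ), Lattice i Γ R →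
    TwoTrivial a R
  growth : ∀ (i : F →+* QB) (P : Jac a QB), (∀ σ : GQ, (∀ x, σ (i x) = i x) → act a σ P = P) →
    ∃ Q S : Jac a QB, (∀ σ : GQ, Over i Γ σ → act a σ Q = Q) ∧
      (∀ σ : GQ, (∀ x, σ (i x) = i x) → act a σ S = S) ∧ P = Q + (S + S)

/-- The automorphisms of the subfield `F` of `C` that are trivial on `E`. -/
def galOver {C F : Type} [Field C] [Field F] [NumberField F] (ι : F →+* C) (E : Set C) :
    Subgroup (F ≃ₐ[ℚ] F) where
  carrier := {γ | ∀ x, ι x ∈ E → γ x = x}
  one_mem' := fun _ _ => rfl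
  mul_mem' := by
    intro γ γ' h h' x hx
    rw [AlgEquiv.mul_apply, h' x hx, h x hx]
  inv_mem' := by
    intro γ h x hx
    have h1 := congrArg (γ⁻¹ : F ≃ₐ[ℚ] F) (h x hx)
    rw [← AlgEquiv.mul_apply, inv_mul_cancel, AlgEquiv.one_apply] at h1
    exact h1.symm

/-- The conditions on the curve `y² = ∏ (x - a i)` that allow to start with `E = ℚ`. -/
structure Nice {g : ℕ} (a : Fin (2 * g + 1) → ℤ) : Prop where
  good : Good a
  nine : ∀ p : ℕ, Near 1 p → OddClusters a p

/-! ### Examples -/

/-- An example of genus 1. -/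
def e1 : Fin (2 * 1 + 1) → ℤ := ![0, 1, 32]

/-- An example of genus 2. -/
def e2 : Fin (2 * 2 + 1) → ℤ := ![0, 1, 2, 64, 65]

/-- An example of genus 3. -/
def e3 : Fin (2 * 3 + 1) → ℤ := ![0, 2, 15, 29, 64, 79, 93]

/-- An example of genus 4. -/
def e4 : Fin (2 * 4 + 1) → ℤ := ![0, 103, 116, 118, 121, 128, 231, 244, 246]

/-- An example of genus 5. -/
def e5 : Fin (2 * 5 + 1) → ℤ := ![0, 124, 211, 252, 274, 281, 335, 339, 384, 402, 463]

/-- An example of genus 6. -/
def e6 : Fin (2 * 6 + 1) → ℤ := ![0, 43, 63, 161, 478, 533, 596, 768, 789, 1087, 1118, 1195, 1364]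

section transport

variable {g : ℕ} {a : Fin (2 * g + 1) → ℤ}

/-- the identity -/
noncomputable def eJ (a : Fin (2 * g + 1) → ℤ) (L : Type) [Field L] :
    Pool.Agent.Y723.HJ.Jac a L ≃+ Jac a L where
  toFun x := x
  invFun x := x
  left_inv _ := rfl
  right_inv _ := rfl
  map_add' _ _ := rfl

lemma eJ_map {F L : Type} [Field F] [Field L] (φ : F →+* L) (x : Jac a F) :
    (eJ a L).symm (pointMap a φ x) = Pool.Agent.Y723.HJ.jmap a φ ((eJ a F).symm x) := rfl

lemma eJ_act (σ : GQ) (x : Jac a QB) :
    (eJ a QB).symm (act a σ x) = Pool.Agent.Y723.HJ.act a σ ((eJ a QB).symm x) := rfl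

/-- the identity on tuples -/
noncomputable def eD (a : Fin (2 * g + 1) → ℤ) {r : ℕ} (L : Type) [Field L] :
    (Fin r → Jac a L) ≃+ (Fin r → Pool.Agent.Y723.HJ.Jac a L) :=
  AddEquiv.piCongrRight (fun _ => (eJ a L).symm)

lemma eD_apply {r : ℕ} {L : Type} [Field L] (P : Fin r → Jac a L) (k : Fin r) :
    eD a L P k = (eJ a L).symm (P k) := rfl

lemma eD_mat {r : ℕ} {L : Type} [Field L] (B : Matrix (Fin r) (Fin r) ℤ) (P : Fin r → Jac a L) :
    eD a L (mat B P) = Pool.Agent.Helper891_JO.mat B (eD a L P) := by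
  have h := Pool.Agent.Helper891_JO.mat_map (AddEquiv.toAddMonoidHom (eJ a L).symm) B P
  funext k
  exact (congrFun h k).symm

lemma eD_act {r : ℕ} {R : GQ → Matrix (Fin r) (Fin r) ℤ} (σ : GQ) (P : Pts a r QB) :
    eD a QB (actA a R σ P) = Pool.Agent.Helper891_JO.actM a R σ (eD a QB P) := by
  unfold actA Pool.Agent.Helper891_JO.actM
  rw [eD_mat]
  rfl

lemma coc_of {r : ℕ} {R : GQ → Matrix (Fin r) (Fin r) ℤ} {f : GQ → Pts a r QB}
    (h : IsCocycle a R f) : Pool.Agent.Helper891_JO.IsCoc a R (fun σ => eD a QB (f σ)) := by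
  refine ⟨h.1.comp _, fun σ τ => ?_⟩
  show eD a QB (f (σ * τ)) = eD a QB (f σ) + Pool.Agent.Helper891_JO.actM a R σ (eD a QB (f τ))
  rw [h.2, map_add, eD_act]

lemma loc_of {r : ℕ} {R : GQ → Matrix (Fin r) (Fin r) ℤ} {f : GQ → Pts a r QB} {K : Type}
    [Field K] (h : LocTriv a R K f) :
    Pool.Agent.Helper891_JO.LocT a R K (fun σ => eD a QB (f σ)) := by
  intro ι
  obtain ⟨P, hP⟩ := h ι
  refine ⟨eD a _ P, fun τ σ hτ => ?_⟩
  have h1 := congrArg (eD a (AlgebraicClosure K)) (hP τ σ hτ)
  rw [map_sub, eD_mat] at h1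
  exact h1

lemma cob_of {r : ℕ} {R : GQ → Matrix (Fin r) (Fin r) ℤ} {f : GQ → Pts a r QB}
    (h : IsCoboundary a R f) : Pool.Agent.Helper891_JO.IsCob a R (fun σ => eD a QB (f σ)) := by
  obtain ⟨P, hP⟩ := h
  refine ⟨eD a QB P, fun σ => ?_⟩
  show eD a QB (f σ) = _
  rw [hP, map_sub, eD_act]

lemma of_cob {r : ℕ} {R : GQ → Matrix (Fin r) (Fin r) ℤ} {f : GQ → Pts a r QB}
    (h : Pool.Agent.Helper891_JO.IsCob a R (fun σ => eD a QB (f σ))) : IsCoboundary a R f := by
  obtain ⟨P, hP⟩ := h
  refine ⟨(eD a QB).symm P, fun σ => ?_⟩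
  apply (eD a QB).injective
  rw [map_sub, eD_act, AddEquiv.apply_symm_apply]
  exact hP σ

end transport

section proof

variable {g : ℕ} {a : Fin (2 * g + 1) → ℤ}

lemma spn_of (h : Transversal a) : Pool.Agent.Helper891_JO.Spn a := by
  intro P h0 hp hc hs i
  have key : ∀ S, Rel a S → P S := by
    intro S hS
    induction hS with
    | first => exact h0
    | pair k i j hi hj => exact hp k i j hi hj
    | cluster S hS => exact hc S ⟨hS.even, hS.near⟩
    | add S T _ _ h1 h2 => exact hs S T h1 h2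
  exact key _ (h i)

lemma ns_of_preserves {F : Type} [Field F] [NumberField F] {γ : F ≃ₐ[ℚ] F} {p : ℕ}
    (h : Preserves γ p) : Pool.Agent.Helper891_EG.NS γ p := by
  intro hp j x
  refine Pool.Agent.Helper891_RP.norm_eq_of_pls (j := j.comp (γ : F →+* F)) (j' := j) ?_ x
  apply HeightOneSpectrum.ext
  ext y
  have h1 := h (Pool.Agent.TH841.NF.pls j) (Pool.Agent.Helper891_RP.p_mem_pls j) y
    ⟨γ (y : F), (y.isIntegral_coe).map (γ : F →ₐ[ℚ] F).toRingHom.toIntAlgHom⟩ rfl
  exact h1

lemma over_iff {F : Type} [Field F] [NumberField F] [IsGalois ℚ F] (i : F →+* QB)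
    (Γ : Subgroup (F ≃ₐ[ℚ] F)) (σ : GQ) :
    Over i Γ σ ↔ Pool.Agent.Helper891_RP.resA i σ ∈ Γ := by
  constructor
  · rintro ⟨γ, hγ, h⟩
    have e : Pool.Agent.Helper891_RP.resA i σ = γ := by
      ext x
      apply i.injective
      rw [← h x]
      exact Pool.Agent.Helper891_RP.resA_spec i σ x
    rw [e]
    exact hγ
  · intro h
    exact ⟨_, h, fun x => (Pool.Agent.Helper891_RP.resA_spec i σ x).symm⟩

/-- the general theorem -/
theorem general (ha : StrictMono a) (ht : Transversal a) {F : Type} [Field F] [NumberField F]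
    (hF : OddField F) {Γ : Subgroup (F ≃ₐ[ℚ] F)} (h : ∀ γ ∈ Γ, ∀ p : ℕ, p.Prime →
      Pool.Agent.Helper891_EG.NS γ p ∨ (p ≠ 2 ∧ OddClusters a p)) : Stable Γ a := by
  have := hF.gal
  have hrat : ∀ γ ∈ Γ, Pool.Agent.Helper891_EG.Ratio γ a := fun γ hγ =>
    Pool.Agent.Helper891_EG.ratio_fix hF.ncl hF.deg (spn_of ht) ha
      ((h γ hγ 2 Nat.prime_two).resolve_right fun h1 => h1.1 rfl)
      fun p hp => (h γ hγ p hp).imp_right And.right
  have hinj := ha.injective
  refine ⟨fun i r R hR => ?_, fun i P hP => ?_⟩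
  · have hRH : ∀ σ ∈ Pool.Agent.Helper891_JO.HQ i, R σ = 1 := fun σ hσ =>
      hR.triv σ ((Pool.Agent.Helper891_JO.mem_HQ i).1 hσ)
    have hinv : ∀ x : Fin r → ℤ, (∀ σ, Pool.Agent.Helper891_RP.resA i σ ∈ Γ →
        (R σ).mulVec x = x) → x = 0 := fun x hx =>
      hR.noinv x fun σ hσ => hx σ ((over_iff i Γ σ).1 hσ)
    refine ⟨fun f hf k hk => ?_, fun P hP => ?_⟩
    · apply of_cob
      refine Pool.Agent.Helper891_EG.Vc.sha_zero i hF.deg hinj hrat hR.mul hRH hinv (coc_of hf.1)
        (fun p _ => loc_of (hf.2.1 p)) (loc_of hf.2.2) k ?_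
      have h1 := cob_of hk
      have e : (fun σ => 2 ^ k • eD a QB (f σ)) = fun σ => eD a QB (2 ^ k • f σ) := by
        funext σ
        rw [map_nsmul]
      rw [e]
      exact h1
    · obtain ⟨Q, ⟨h1, h2⟩, h3⟩ := Pool.Agent.Helper891_EG.Vc.pts_two i hF.deg hinj hrat hR.mul
        hRH hinv (eD a QB P) (fun σ => by rw [← eD_act, hP σ])
      refine ⟨(eD a QB).symm Q, ⟨fun σ => ?_, ?_⟩, ?_⟩
      · apply (eD a QB).injective
        rw [eD_act, AddEquiv.apply_symm_apply]
        exact h1 σ
      · apply (eD a QB).injective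
        rw [map_add, AddEquiv.apply_symm_apply]
        exact h2
      · rintro Q' ⟨h4, h5⟩
        apply (eD a QB).injective
        rw [AddEquiv.apply_symm_apply]
        exact h3 _ ⟨fun σ => by rw [← eD_act, h4 σ], by rw [← map_add, h5]⟩
  · obtain ⟨Q, S, hQ, hS, hPQ⟩ := Pool.Agent.Helper891_EG.Gr.growth i hF.deg hinj hrat
      (P := (eJ a QB).symm P) (fun σ hσ => by
        rw [← eJ_act, hP σ ((Pool.Agent.Helper891_JO.mem_HQ i).1 hσ)])
    refine ⟨eJ a QB Q, eJ a QB S, fun σ hσ => ?_, fun σ hσ => ?_, ?_⟩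
    · apply (eJ a QB).symm.injective
      rw [eJ_act, AddEquiv.symm_apply_apply]
      exact hQ σ ((over_iff i Γ σ).1 hσ)
    · apply (eJ a QB).symm.injective
      rw [eJ_act, AddEquiv.symm_apply_apply]
      exact hS σ ((Pool.Agent.Helper891_JO.mem_HQ i).2 hσ)
    · apply (eJ a QB).symm.injective
      rw [map_add, map_add, AddEquiv.symm_apply_apply, AddEquiv.symm_apply_apply]
      exact hPQ

lemma gal_layer (n : ℕ) (M : Type) [Field M] [NumberField M]
    [IsCyclotomicExtension {3 ^ (n + 1)} ℚ M] (F : IntermediateField ℚ M) :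
    @IsGalois ℚ _ F _ DivisionRing.toRatAlgebra := by
  have hz : NeZero (3 ^ (n + 1)) := ⟨pow_ne_zero _ (by norm_num)⟩
  have hab : IsAbelianGalois ℚ M := IsCyclotomicExtension.isAbelianGalois {3 ^ (n + 1)} ℚ M
  have h1 : @IsAbelianGalois ℚ F _ _ F.algebra' :=
    @IsAbelianGalois.of_algHom ℚ F M _ _ F.algebra' _ _ F.val hab
  have e : F.algebra' = (DivisionRing.toRatAlgebra : Algebra ℚ F) := Subsingleton.elim _ _
  rw [← e]
  exact h1.toIsGalois

lemma ns_of_one {F : Type} [Field F] [NumberField F] {p : ℕ}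
    (h : ∀ v w : HeightOneSpectrum (𝓞 F), (p : 𝓞 F) ∈ v.asIdeal → (p : 𝓞 F) ∈ w.asIdeal → v = w)
    (γ : F ≃ₐ[ℚ] F) : Pool.Agent.Helper891_EG.NS γ p := by
  intro hp j x
  exact Pool.Agent.Helper891_RP.norm_eq_of_pls (j := j.comp (γ : F →+* F)) (j' := j)
    (h _ _ (Pool.Agent.Helper891_RP.p_mem_pls _) (Pool.Agent.Helper891_RP.p_mem_pls _)) x

/-- the layers -/
theorem tower (ha : StrictMono a) (ht : Transversal a) (n : ℕ) (C : Type) [Field C] [NumberField C]
    [IsCyclotomicExtension {3 ^ (n + 1)} ℚ C] (E F : IntermediateField ℚ C) (hEF : E ≤ F)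
    (hodd : Odd (Module.finrank ℚ F)) (h : ∀ p : ℕ, Near (Module.finrank ℚ E) p → OddClusters a p) :
    Stable (galOver (algebraMap F C) (E : Set C)) a := by
  have hz : NeZero (3 ^ (n + 1)) := ⟨pow_ne_zero _ (by norm_num)⟩
  have hgal := gal_layer n C F
  obtain ⟨-, -, hN⟩ := Pool.Agent.Y682.XD.three_hyp n C F hodd
  have hcu : IsCyclic (ZMod (3 ^ (n + 1)))ˣ :=
    ZMod.isCyclic_units_of_prime_pow 3 Nat.prime_three (by norm_num) (n + 1)
  have hcC : IsCyclic (C ≃ₐ[ℚ] C) := by
    have e := IsCyclotomicExtension.autEquivPow C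
      (Polynomial.cyclotomic.irreducible_rat (n := 3 ^ (n + 1)) (Nat.pos_of_ne_zero hz.out))
    exact isCyclic_of_surjective e.symm e.symm.surjective
  have hE0 : 0 < Module.finrank ℚ E := Module.finrank_pos
  refine general ha ht ⟨hgal, hodd, hN⟩ fun γ hγ p hp => ?_
  have hlay : p ≠ 3 → ¬ 9 * Module.finrank ℚ E ∣ p ^ 2 - 1 → Pool.Agent.Helper891_EG.NS γ p :=
    fun h3 hm => Pool.Agent.Helper891_EG.La.ns_layer (m := n) hcC hgal hEF hodd hp h3 hm γ hγ
  by_cases h3 : p = 3
  · left
    subst h3
    exact ns_of_one (fun v w hv hw => Pool.Agent.Y419.XD.s_ram 3 n Nat.prime_three C F v w hv hw) γ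
  · by_cases h2 : p = 2
    · left
      refine hlay h3 fun h4 => ?_
      rw [h2] at h4
      have := Nat.le_of_dvd (by norm_num) h4
      omega
    · by_cases h4 : 9 * Module.finrank ℚ E ∣ p ^ 2 - 1
      · exact Or.inr ⟨h2, h p ⟨hp, h2, h3, h4⟩⟩
      · exact Or.inl (hlay h3 h4)

lemma cluster_mul {D : ℤ} (hD : D ≠ 0) (ha : Function.Injective a)
    {S : Finset (Fin (2 * g + 1))} (h : Cluster a S) : Cluster (fun i => D * a i) S := by
  have e : ∀ i j, i ≠ j → padicValInt 2 (D * a i - D * a j) =
      padicValInt 2 D + padicValInt 2 (a i - a j) := by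
    intro i j hij
    rw [← mul_sub, padicValInt.mul hD (sub_ne_zero.2 fun h => hij (ha h))]
  refine ⟨h.even, fun i hi j hj l hl hij => ?_⟩
  have hil : i ≠ l := by
    rintro rfl
    exact hl hi
  rw [e i l hil, e i j hij]
  have := h.near i hi j hj l hl hij
  omega

lemma trans_mul {D : ℤ} (hD : D ≠ 0) (ha : Function.Injective a) (h : Transversal a) :
    Transversal (fun i => D * a i) := by
  have key : ∀ S, Rel a S → Rel (fun i => D * a i) S := by
    intro S hS
    induction hS with
    | first => exact Rel.first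
    | pair k i j hi hj => exact Rel.pair k i j hi hj
    | cluster S hS => exact Rel.cluster S (cluster_mul hD ha hS)
    | add S T _ _ h1 h2 => exact Rel.add S T h1 h2
  exact fun i => key _ (h i)

lemma odd_mul {p : ℕ} (hp : p.Prime) {u : ℤ} (hu : ¬ (p : ℤ) ∣ u)
    (π : Fin (2 * g + 1) ≃ Fin (2 * g + 1)) (h : OddClusters a p) :
    OddClusters (fun i => u * a (π i)) p := by
  have : Fact p.Prime := ⟨hp⟩
  have e : ∀ i l, padicValInt p (u * a (π i) - u * a (π l)) = padicValInt p (a (π i) - a (π l)) := by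
    intro i l
    rw [← mul_sub]
    exact Pool.Agent.Helper891_EG.val_tw hu _
  intro i l hil
  obtain ⟨h1, h2⟩ := h (π i) (π l) (fun h3 => hil (π.injective h3))
  simp only [e]
  refine ⟨h1, ?_⟩
  have h3 : (Finset.univ.filter fun k => k = i ∨ padicValInt p (a (π i) - a (π l)) ≤
      padicValInt p (a (π i) - a (π k))).card = (Finset.univ.filter fun k => k = π i ∨
      padicValInt p (a (π i) - a (π l)) ≤ padicValInt p (a (π i) - a k)).card := by
    refine Finset.card_equiv π fun k => ?_
    rw [Finset.mem_filter, Finset.mem_filter]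
    simp only [Finset.mem_univ, true_and, EmbeddingLike.apply_eq_iff_eq]
  rw [h3]
  exact h2

lemma odd_of_none {p : ℕ} (h : ∀ i l : Fin (2 * g + 1), i ≠ l → ¬ (p : ℤ) ∣ a i - a l) :
    OddClusters a p := Pool.Agent.Helper891_EG.tree_of_none h

lemma neg_mono (ha : StrictMono a) : StrictMono (neg a) := by
  intro i j hij
  show -a (Fin.rev i) < -a (Fin.rev j)
  have := ha (Fin.rev_lt_rev.2 hij)
  linarith

/-- the twists -/
theorem twists (ha : StrictMono a) {D : ℤ} (hD : D ≠ 0) (hp : 0 < D → Transversal a)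
    (hn : D < 0 → Transversal (neg a)) (n : ℕ) (C : Type) [Field C] [NumberField C]
    [IsCyclotomicExtension {3 ^ (n + 1)} ℚ C] (E F : IntermediateField ℚ C) (hEF : E ≤ F)
    (hodd : Odd (Module.finrank ℚ F))
    (h : ∀ p : ℕ, Near (Module.finrank ℚ E) p → ¬ (p : ℤ) ∣ D ∧ OddClusters a p) :
    Stable (galOver (algebraMap F C) (E : Set C)) (twist a D) := by
  by_cases h0 : 0 < D
  · have e : twist a D = fun i => D * a i := by
      funext i
      exact if_pos h0
    rw [e]
    exact tower (fun i j hij => mul_lt_mul_of_pos_left (ha hij) h0)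
      (trans_mul hD ha.injective (hp h0)) n C E F hEF hodd fun p hp' =>
        odd_mul hp'.1 (h p hp').1 (Equiv.refl _) (h p hp').2
  · have h1 : D < 0 := lt_of_le_of_ne (not_lt.1 h0) hD
    have h2 : 0 < -D := by linarith
    have e : twist a D = fun i => -D * neg a i := by
      funext i
      show (if 0 < D then D * a i else D * a (Fin.rev i)) = -D * -a (Fin.rev i)
      rw [if_neg h0]
      ring
    have e' : twist a D = fun i => D * a (Fin.revPerm i) := by
      funext i
      exact if_neg h0
    have hm : StrictMono (twist a D) := by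
      rw [e]
      exact fun i j hij => mul_lt_mul_of_pos_left (neg_mono ha hij) h2
    have ht : Transversal (twist a D) := by
      rw [e]
      exact trans_mul h2.ne' (neg_mono ha).injective (hn h1)
    refine tower hm ht n C E F hEF hodd fun p hp' => ?_
    rw [e']
    exact odd_mul hp'.1 (h p hp').1 Fin.revPerm (h p hp').2

/-- from some layer on -/
theorem eventually (ha : StrictMono a) {D : ℤ} (hD : D ≠ 0) : ∃ N : ℕ, ∀ d : ℕ, N ≤ d →
    ∀ p : ℕ, Near d p → ¬ (p : ℤ) ∣ D ∧ OddClusters a p := by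
  classical
  set Δ : ℤ := D * ∏ x ∈ (Finset.univ : Finset (Fin (2 * g + 1) × Fin (2 * g + 1))).filter
    (fun x => x.1 ≠ x.2), (a x.1 - a x.2) with hΔ
  have hΔ0 : Δ ≠ 0 := by
    rw [hΔ]
    refine mul_ne_zero hD (Finset.prod_ne_zero_iff.2 fun x hx => ?_)
    exact sub_ne_zero.2 fun h => (Finset.mem_filter.1 hx).2 (ha.injective h)
  refine ⟨Δ.natAbs ^ 2 + 1, fun d hd p hp => ?_⟩
  obtain ⟨hp1, -, -, h9⟩ := hp
  have hp2 : 1 < p ^ 2 := Nat.one_lt_pow two_ne_zero hp1.one_lt
  have h1 : 9 * d ≤ p ^ 2 - 1 := Nat.le_of_dvd (by omega) h9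
  have hnd : ¬ (p : ℤ) ∣ Δ := by
    intro h2
    have h3 : p ≤ Δ.natAbs := Nat.le_of_dvd (Int.natAbs_pos.2 hΔ0) (Int.natCast_dvd.1 h2)
    have h4 : p ^ 2 ≤ Δ.natAbs ^ 2 := Nat.pow_le_pow_left h3 2
    omega
  refine ⟨fun h2 => hnd (h2.mul_right _), odd_of_none fun i l hil h2 => hnd ?_⟩
  refine Dvd.dvd.mul_left (h2.trans ?_) D
  exact Finset.dvd_prod_of_mem (fun x : Fin (2 * g + 1) × Fin (2 * g + 1) => a x.1 - a x.2)
    (Finset.mem_filter.2 ⟨Finset.mem_univ (i, l), hil⟩)

lemma nice_of (hm : StrictMono a) (hp : Transversal a) (hn : Transversal (neg a))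
    (h9 : ∀ p : ℕ, p.Prime → p ≠ 2 → (∃ i j, i ≠ j ∧ (p : ℤ) ∣ a i - a j) →
      p = 3 ∨ p % 9 = 2 ∨ p % 9 = 4 ∨ p % 9 = 5 ∨ p % 9 = 7) : Nice a := by
  refine ⟨⟨hm, hp, hn⟩, ?_⟩
  rintro p ⟨h1, h2, h3, h4⟩
  refine odd_of_none fun i l hil hd => ?_
  have h5 := h9 p h1 h2 ⟨i, l, hil, hd⟩
  rw [mul_one] at h4
  have hp2 : 1 < p ^ 2 := Nat.one_lt_pow two_ne_zero h1.one_lt
  have h6 : p ^ 2 % 9 = 1 := by omega
  rw [Nat.pow_mod] at h6
  rcases h5 with h5 | h5 | h5 | h5 | h5
  · exact h3 h5
  all_goals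
    rw [h5] at h6
    omega

end proof

section examples

open Pool.Agent.Helper891_JO (nine_of_list padic_le padic_ge)

variable {g : ℕ} {a : Fin (2 * g + 1) → ℤ}

lemma step {i j : Fin (2 * g + 1)} (hij : i ≠ j) (h : Rel a {i}) (h' : Rel a {i, j}) :
    Rel a {j} := by
  have h1 := Rel.add _ _ h h'
  have e : symmDiff ({i} : Finset (Fin (2 * g + 1))) {i, j} = {j} := by
    ext x
    rw [Finset.mem_symmDiff, Finset.mem_singleton, Finset.mem_insert, Finset.mem_singleton]
    constructor
    · rintro (⟨h1, h2⟩ | ⟨h1 | h1, h2⟩)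
      · exact absurd (Or.inl h1) h2
      · exact absurd h1 h2
      · exact h1
    · rintro rfl
      exact Or.inr ⟨Or.inr rfl, hij.symm⟩
  rwa [e] at h1

lemma pairc {i j : Fin (2 * g + 1)} (h : Rel a {i, j}) : Rel a {j, i} := by
  rwa [Finset.pair_comm]

lemma two (k : ℕ) {i j : Fin (2 * g + 1)} (hij : i ≠ j) (ha : a i ≠ a j)
    (h1 : (2 : ℤ) ^ (k + 5) ∣ a i - a j)
    (h2 : ∀ l, l ≠ i → l ≠ j → ¬ (2 : ℤ) ^ (k + 1) ∣ a i - a l ∧ ¬ (2 : ℤ) ^ (k + 1) ∣ a j - a l) :
    Rel a {i, j} := by
  refine Rel.cluster _ ⟨⟨1, Finset.card_pair hij⟩, ?_⟩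
  have g1 : k + 5 ≤ padicValInt 2 (a i - a j) := padic_ge (sub_ne_zero.2 ha) h1
  have g2 : k + 5 ≤ padicValInt 2 (a j - a i) := by
    refine padic_ge (sub_ne_zero.2 ha.symm) ?_
    rw [← neg_sub]
    exact (dvd_neg).2 h1
  intro x hx y hy l hl hxy
  rw [Finset.mem_insert, Finset.mem_singleton] at hx hy hl
  push Not at hl
  obtain ⟨h3, h4⟩ := h2 l hl.1 hl.2
  have h5 := padic_le h3
  have h6 := padic_le h4
  rcases hx with rfl | rfl <;> rcases hy with rfl | rfl
  · exact absurd rfl hxy
  · omega
  · omega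
  · exact absurd rfl hxy

end examples

section palindromes

variable {g : ℕ} {a : Fin (2 * g + 1) → ℤ}

/-- the numbers `a_i` and `a_{2 g - i}` are close to each other and the other ones are not -/
structure Pal (s : ℕ) (a : Fin (2 * g + 1) → ℤ) : Prop where
  near : ∀ i j : Fin (2 * g + 1), (i : ℕ) + j = 2 * g → (2 : ℤ) ^ (s + 5) ∣ a i - a j
  far : ∀ i j : Fin (2 * g + 1), i ≠ j → (i : ℕ) + j ≠ 2 * g → ¬ (2 : ℤ) ^ (s + 1) ∣ a i - a j

lemma pal_neg {s : ℕ} (h : Pal s a) : Pal s (neg a) := by
  have e : ∀ i j, neg a i - neg a j = -(a (Fin.rev i) - a (Fin.rev j)) := by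
    intro i j
    unfold neg
    ring
  constructor
  · intro i j hij
    rw [e, dvd_neg]
    refine h.near _ _ ?_
    rw [Fin.val_rev, Fin.val_rev]
    omega
  · intro i j hij h1
    rw [e, dvd_neg]
    refine h.far _ _ (fun h2 => hij (Fin.rev_injective h2)) ?_
    rw [Fin.val_rev, Fin.val_rev]
    omega

lemma pal_trans {s : ℕ} (ha : Function.Injective a) (h : Pal s a) : Transversal a := by
  have hcl : ∀ i j : Fin (2 * g + 1), i ≠ j → (i : ℕ) + j = 2 * g → Rel a {i, j} := by
    intro i j hij h1
    refine two s hij (fun h2 => hij (ha h2)) (h.near i j h1) fun l hli hlj => ⟨?_, ?_⟩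
    · refine h.far i l hli.symm fun h2 => hlj (Fin.ext ?_)
      omega
    · refine h.far j l hlj.symm fun h2 => hli (Fin.ext ?_)
      omega
  have key : ∀ k : ℕ, k ≤ g → ∀ x y : Fin (2 * g + 1), (x : ℕ) = k → (y : ℕ) = 2 * g - k →
      Rel a {x} ∧ Rel a {y} := by
    intro k
    induction k with
    | zero =>
      intro _ x y hx hy
      have hx0 : x = 0 := Fin.ext hx
      have h0 : Rel a {x} := by
        rw [hx0]
        exact Rel.first
      refine ⟨h0, ?_⟩
      by_cases hxy : x = y
      · rwa [← hxy]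
      · exact step hxy h0 (hcl x y hxy (by omega))
    | succ k ih =>
      intro hk x y hx hy
      have hx' : k < 2 * g + 1 := by omega
      have hy' : 2 * g - k < 2 * g + 1 := by omega
      obtain ⟨h1, h2⟩ := ih (by omega) ⟨k, hx'⟩ ⟨2 * g - k, hy'⟩ rfl rfl
      rcases Nat.even_or_odd k with ⟨t, ht⟩ | ⟨t, ht⟩
      · have hp : Rel a {y, ⟨2 * g - k, hy'⟩} := Rel.pair (g - t - 1) _ _ (by omega)
          (show 2 * g - k = _ by omega)
        have hne : (⟨2 * g - k, hy'⟩ : Fin (2 * g + 1)) ≠ y := by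
          intro h3
          have h4 : 2 * g - k = (y : ℕ) := congrArg Fin.val h3
          omega
        have h3 : Rel a {y} := step hne h2 (pairc hp)
        refine ⟨?_, h3⟩
        by_cases hxy : x = y
        · rwa [hxy]
        · exact step (Ne.symm hxy) h3 (pairc (hcl x y hxy (by omega)))
      · have hp : Rel a {⟨k, hx'⟩, x} := Rel.pair t _ _ (show k = _ by omega) (by omega)
        have hne : (⟨k, hx'⟩ : Fin (2 * g + 1)) ≠ x := by
          intro h3
          have h4 : k = (x : ℕ) := congrArg Fin.val h3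
          omega
        have h3 : Rel a {x} := step hne h1 hp
        refine ⟨h3, ?_⟩
        by_cases hxy : x = y
        · rwa [← hxy]
        · exact step hxy h3 (hcl x y hxy (by omega))
  intro i
  by_cases hi : (i : ℕ) ≤ g
  · exact (key i hi i ⟨2 * g - i, by omega⟩ rfl rfl).1
  · exact (key (2 * g - i) (by omega) ⟨2 * g - i, by omega⟩ i rfl (by omega)).2

open Pool.Agent.Helper891_EG.Ct in
lemma good_A {s : ℕ} (hs : g < 2 ^ s) (T : ℕ) (t : Fin (2 * g + 1) → Fin T) :
    Good (A (fun i : Fin (2 * g + 1) => ((min (i : ℕ) (2 * g - i) : ℕ) : ℤ))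
      ((2 ^ (s + 5) : ℕ) : ℤ) t) := by
  set r : Fin (2 * g + 1) → ℤ := fun i => ((min (i : ℕ) (2 * g - i) : ℕ) : ℤ) with hr
  have hr0 : ∀ i, 0 ≤ r i := fun i => Int.natCast_nonneg _
  have hrg : ∀ i, r i ≤ g := by
    intro i
    have h1 : min (i : ℕ) (2 * g - i) ≤ g := by omega
    show ((min (i : ℕ) (2 * g - i) : ℕ) : ℤ) ≤ g
    exact_mod_cast h1
  have hsZ : (g : ℤ) < 2 ^ s := by exact_mod_cast hs
  have hrN : ∀ i, r i < ((2 ^ (s + 5) : ℕ) : ℤ) := by
    intro i
    have h1 : (2 : ℤ) ^ s ≤ ((2 ^ (s + 5) : ℕ) : ℤ) := by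
      push_cast
      exact pow_le_pow_right₀ (by norm_num) (by omega)
    exact (hrg i).trans_lt (hsZ.trans_le h1)
  have hm : StrictMono (A r ((2 ^ (s + 5) : ℕ) : ℤ) t) := A_mono hr0 hrN t
  have hd : ∀ i j, ∃ z : ℤ, A r ((2 ^ (s + 5) : ℕ) : ℤ) t i - A r ((2 ^ (s + 5) : ℕ) : ℤ) t j =
      (r i - r j) + 2 ^ (s + 5) * z := by
    intro i j
    refine ⟨(((t i : ℕ) : ℤ) + ((i : ℕ) : ℤ) * T) - (((t j : ℕ) : ℤ) + ((j : ℕ) : ℤ) * T), ?_⟩
    unfold A
    push_cast
    ring
  have hpal : Pal s (A r ((2 ^ (s + 5) : ℕ) : ℤ) t) := by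
    constructor
    · intro i j hij
      obtain ⟨z, hz⟩ := hd i j
      have h1 : r i = r j := by
        simp only [hr]
        congr 1
        omega
      rw [hz, h1, sub_self, zero_add]
      exact dvd_mul_right _ _
    · intro i j hij h1 h2
      obtain ⟨z, hz⟩ := hd i j
      rw [hz] at h2
      have h3 : (2 : ℤ) ^ (s + 1) ∣ 2 ^ (s + 5) * z :=
        (pow_dvd_pow 2 (by omega)).mul_right z
      have h4 : (2 : ℤ) ^ (s + 1) ∣ r i - r j := (dvd_add_left h3).1 h2
      have h5 : r i - r j = 0 := by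
        refine Int.eq_zero_of_abs_lt_dvd h4 ?_
        rw [abs_lt]
        have h6 : (2 : ℤ) ^ s ≤ 2 ^ (s + 1) := pow_le_pow_right₀ (by norm_num) (by omega)
        constructor
        · linarith [hr0 i, hrg j]
        · linarith [hr0 j, hrg i]
      have h6 : min (i : ℕ) (2 * g - i) = min (j : ℕ) (2 * g - j) := by
        have h7 : r i = r j := by linarith
        simp only [hr] at h7
        exact_mod_cast h7
      have h7 : (i : ℕ) ≠ j := fun h8 => hij (Fin.ext h8)
      have := i.2
      have := j.2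
      omega
  exact ⟨hm, pal_trans hm.injective hpal, pal_trans (neg_mono hm).injective (pal_neg hpal)⟩

end palindromes

section examples

open Pool.Agent.Helper891_JO (nine_of_list)

variable {g : ℕ} {a : Fin (2 * g + 1) → ℤ}

lemma nice1 : Nice (g := 1) e1 := by
  refine nice_of ?_ ?_ ?_ ?_
  · intro i j hij
    revert i j
    decide
  · show Transversal (g := 1) e1
    have t0 : Rel (g := 1) e1 {0} := Rel.first
    have t2 := step (i := 0) (j := 2) (by decide) t0 (two 0 (by decide) (by decide) (by decide) (by decide))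
    have t1 := step (i := 2) (j := 1) (by decide) t2 (pairc (Rel.pair 0 _ _ rfl rfl))
    intro i
    fin_cases i
    exacts [t0, t1, t2]
  · show Transversal (g := 1) (neg (g := 1) e1)
    have t0 : Rel (g := 1) (neg (g := 1) e1) {0} := Rel.first
    have t2 := step (i := 0) (j := 2) (by decide) t0 (two 0 (by decide) (by decide) (by decide) (by decide))
    have t1 := step (i := 2) (j := 1) (by decide) t2 (pairc (Rel.pair 0 _ _ rfl rfl))
    intro i
    fin_cases i
    exacts [t0, t1, t2]
  · exact nine_of_list _ [31] 6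
      (by
        intro q hq
        fin_cases hq <;> norm_num)
      (by decide +kernel)

lemma nice2 : Nice (g := 2) e2 := by
  refine nice_of ?_ ?_ ?_ ?_
  · intro i j hij
    revert i j
    decide
  · show Transversal (g := 2) e2
    have t0 : Rel (g := 2) e2 {0} := Rel.first
    have t3 := step (i := 0) (j := 3) (by decide) t0 (two 1 (by decide) (by decide) (by decide) (by decide))
    have t4 := step (i := 3) (j := 4) (by decide) t3 (Rel.pair 1 _ _ rfl rfl)
    have t1 := step (i := 4) (j := 1) (by decide) t4 (two 0 (by decide) (by decide) (by decide) (by decide))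
    have t2 := step (i := 1) (j := 2) (by decide) t1 (Rel.pair 0 _ _ rfl rfl)
    intro i
    fin_cases i
    exacts [t0, t1, t2, t3, t4]
  · show Transversal (g := 2) (neg (g := 2) e2)
    have t0 : Rel (g := 2) (neg (g := 2) e2) {0} := Rel.first
    have t3 := step (i := 0) (j := 3) (by decide) t0 (two 0 (by decide) (by decide) (by decide) (by decide))
    have t4 := step (i := 3) (j := 4) (by decide) t3 (Rel.pair 1 _ _ rfl rfl)
    have t1 := step (i := 4) (j := 1) (by decide) t4 (two 1 (by decide) (by decide) (by decide) (by decide))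
    have t2 := step (i := 1) (j := 2) (by decide) t1 (Rel.pair 0 _ _ rfl rfl)
    intro i
    fin_cases i
    exacts [t0, t1, t2, t3, t4]
  · exact nine_of_list _ [3, 5, 7, 13, 31] 7
      (by
        intro q hq
        fin_cases hq <;> norm_num)
      (by decide +kernel)

lemma nice3 : Nice (g := 3) e3 := by
  refine nice_of ?_ ?_ ?_ ?_
  · intro i j hij
    revert i j
    decide
  · show Transversal (g := 3) e3
    have t0 : Rel (g := 3) e3 {0} := Rel.first
    have t4 := step (i := 0) (j := 4) (by decide) t0 (two 1 (by decide) (by decide) (by decide) (by decide))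
    have t3 := step (i := 4) (j := 3) (by decide) t4 (pairc (Rel.pair 1 _ _ rfl rfl))
    have t6 := step (i := 3) (j := 6) (by decide) t3 (two 1 (by decide) (by decide) (by decide) (by decide))
    have t5 := step (i := 6) (j := 5) (by decide) t6 (pairc (Rel.pair 2 _ _ rfl rfl))
    have t2 := step (i := 5) (j := 2) (by decide) t5 (two 1 (by decide) (by decide) (by decide) (by decide))
    have t1 := step (i := 2) (j := 1) (by decide) t2 (pairc (Rel.pair 0 _ _ rfl rfl))
    intro i
    fin_cases i
    exacts [t0, t1, t2, t3, t4, t5, t6]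
  · show Transversal (g := 3) (neg (g := 3) e3)
    have t0 : Rel (g := 3) (neg (g := 3) e3) {0} := Rel.first
    have t3 := step (i := 0) (j := 3) (by decide) t0 (two 1 (by decide) (by decide) (by decide) (by decide))
    have t4 := step (i := 3) (j := 4) (by decide) t3 (Rel.pair 1 _ _ rfl rfl)
    have t1 := step (i := 4) (j := 1) (by decide) t4 (two 1 (by decide) (by decide) (by decide) (by decide))
    have t2 := step (i := 1) (j := 2) (by decide) t1 (Rel.pair 0 _ _ rfl rfl)
    have t6 := step (i := 2) (j := 6) (by decide) t2 (two 1 (by decide) (by decide) (by decide) (by decide))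
    have t5 := step (i := 6) (j := 5) (by decide) t6 (pairc (Rel.pair 2 _ _ rfl rfl))
    intro i
    fin_cases i
    exacts [t0, t1, t2, t3, t4, t5, t6]
  · exact nine_of_list _ [3, 5, 7, 11, 13, 29, 31, 79] 7
      (by
        intro q hq
        fin_cases hq <;> norm_num)
      (by decide +kernel)

lemma nice4 : Nice (g := 4) e4 := by
  refine nice_of ?_ ?_ ?_ ?_
  · intro i j hij
    revert i j
    decide
  · show Transversal (g := 4) e4
    have t0 : Rel (g := 4) e4 {0} := Rel.first
    have t5 := step (i := 0) (j := 5) (by decide) t0 (two 2 (by decide) (by decide) (by decide) (by decide))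
    have t6 := step (i := 5) (j := 6) (by decide) t5 (Rel.pair 2 _ _ rfl rfl)
    have t1 := step (i := 6) (j := 1) (by decide) t6 (two 1 (by decide) (by decide) (by decide) (by decide))
    have t2 := step (i := 1) (j := 2) (by decide) t1 (Rel.pair 0 _ _ rfl rfl)
    have t7 := step (i := 2) (j := 7) (by decide) t2 (two 2 (by decide) (by decide) (by decide) (by decide))
    have t8 := step (i := 7) (j := 8) (by decide) t7 (Rel.pair 3 _ _ rfl rfl)
    have t3 := step (i := 8) (j := 3) (by decide) t8 (two 1 (by decide) (by decide) (by decide) (by decide))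
    have t4 := step (i := 3) (j := 4) (by decide) t3 (Rel.pair 1 _ _ rfl rfl)
    intro i
    fin_cases i
    exacts [t0, t1, t2, t3, t4, t5, t6, t7, t8]
  · show Transversal (g := 4) (neg (g := 4) e4)
    have t0 : Rel (g := 4) (neg (g := 4) e4) {0} := Rel.first
    have t5 := step (i := 0) (j := 5) (by decide) t0 (two 1 (by decide) (by decide) (by decide) (by decide))
    have t6 := step (i := 5) (j := 6) (by decide) t5 (Rel.pair 2 _ _ rfl rfl)
    have t1 := step (i := 6) (j := 1) (by decide) t6 (two 2 (by decide) (by decide) (by decide) (by decide))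
    have t2 := step (i := 1) (j := 2) (by decide) t1 (Rel.pair 0 _ _ rfl rfl)
    have t7 := step (i := 2) (j := 7) (by decide) t2 (two 1 (by decide) (by decide) (by decide) (by decide))
    have t8 := step (i := 7) (j := 8) (by decide) t7 (Rel.pair 3 _ _ rfl rfl)
    have t3 := step (i := 8) (j := 3) (by decide) t8 (two 2 (by decide) (by decide) (by decide) (by decide))
    have t4 := step (i := 3) (j := 4) (by decide) t3 (Rel.pair 1 _ _ rfl rfl)
    intro i
    fin_cases i
    exacts [t0, t1, t2, t3, t4, t5, t6, t7, t8]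
  · exact nine_of_list _ [3, 5, 7, 11, 13, 23, 29, 41, 47, 59, 61, 103, 113] 8
      (by
        intro q hq
        fin_cases hq <;> norm_num)
      (by decide +kernel)

lemma nice5 : Nice (g := 5) e5 := by
  refine nice_of ?_ ?_ ?_ ?_
  · intro i j hij
    revert i j
    decide
  · show Transversal (g := 5) e5
    have t0 : Rel (g := 5) e5 {0} := Rel.first
    have t8 := step (i := 0) (j := 8) (by decide) t0 (two 2 (by decide) (by decide) (by decide) (by decide))
    have t7 := step (i := 8) (j := 7) (by decide) t8 (pairc (Rel.pair 3 _ _ rfl rfl))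
    have t2 := step (i := 7) (j := 2) (by decide) t7 (two 2 (by decide) (by decide) (by decide) (by decide))
    have t1 := step (i := 2) (j := 1) (by decide) t2 (pairc (Rel.pair 0 _ _ rfl rfl))
    have t3 := step (i := 1) (j := 3) (by decide) t1 (two 2 (by decide) (by decide) (by decide) (by decide))
    have t4 := step (i := 3) (j := 4) (by decide) t3 (Rel.pair 1 _ _ rfl rfl)
    have t9 := step (i := 4) (j := 9) (by decide) t4 (two 1 (by decide) (by decide) (by decide) (by decide))
    have t10 := step (i := 9) (j := 10) (by decide) t9 (Rel.pair 4 _ _ rfl rfl)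
    have t6 := step (i := 10) (j := 6) (by decide) t10 (two 2 (by decide) (by decide) (by decide) (by decide))
    have t5 := step (i := 6) (j := 5) (by decide) t6 (pairc (Rel.pair 2 _ _ rfl rfl))
    intro i
    fin_cases i
    exacts [t0, t1, t2, t3, t4, t5, t6, t7, t8, t9, t10]
  · show Transversal (g := 5) (neg (g := 5) e5)
    have t0 : Rel (g := 5) (neg (g := 5) e5) {0} := Rel.first
    have t4 := step (i := 0) (j := 4) (by decide) t0 (two 2 (by decide) (by decide) (by decide) (by decide))
    have t3 := step (i := 4) (j := 3) (by decide) t4 (pairc (Rel.pair 1 _ _ rfl rfl))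
    have t8 := step (i := 3) (j := 8) (by decide) t3 (two 2 (by decide) (by decide) (by decide) (by decide))
    have t7 := step (i := 8) (j := 7) (by decide) t8 (pairc (Rel.pair 3 _ _ rfl rfl))
    have t9 := step (i := 7) (j := 9) (by decide) t7 (two 2 (by decide) (by decide) (by decide) (by decide))
    have t10 := step (i := 9) (j := 10) (by decide) t9 (Rel.pair 4 _ _ rfl rfl)
    have t2 := step (i := 10) (j := 2) (by decide) t10 (two 2 (by decide) (by decide) (by decide) (by decide))
    have t1 := step (i := 2) (j := 1) (by decide) t2 (pairc (Rel.pair 0 _ _ rfl rfl))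
    have t6 := step (i := 1) (j := 6) (by decide) t1 (two 1 (by decide) (by decide) (by decide) (by decide))
    have t5 := step (i := 6) (j := 5) (by decide) t6 (pairc (Rel.pair 2 _ _ rfl rfl))
    intro i
    fin_cases i
    exacts [t0, t1, t2, t3, t4, t5, t6, t7, t8, t9, t10]
  · exact nine_of_list _ [3, 5, 7, 11, 13, 29, 31, 41, 43, 61, 67, 79, 83, 103, 113, 137, 139, 157, 173, 191, 211, 281, 463] 9
      (by
        intro q hq
        fin_cases hq <;> norm_num)
      (by decide +kernel)

lemma nice6 : Nice (g := 6) e6 := by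
  refine nice_of ?_ ?_ ?_ ?_
  · intro i j hij
    revert i j
    decide
  · show Transversal (g := 6) e6
    have t0 : Rel (g := 6) e6 {0} := Rel.first
    have t7 := step (i := 0) (j := 7) (by decide) t0 (two 2 (by decide) (by decide) (by decide) (by decide))
    have t8 := step (i := 7) (j := 8) (by decide) t7 (Rel.pair 3 _ _ rfl rfl)
    have t5 := step (i := 8) (j := 5) (by decide) t8 (two 2 (by decide) (by decide) (by decide) (by decide))
    have t6 := step (i := 5) (j := 6) (by decide) t5 (Rel.pair 2 _ _ rfl rfl)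
    have t12 := step (i := 6) (j := 12) (by decide) t6 (two 2 (by decide) (by decide) (by decide) (by decide))
    have t11 := step (i := 12) (j := 11) (by decide) t12 (pairc (Rel.pair 5 _ _ rfl rfl))
    have t1 := step (i := 11) (j := 1) (by decide) t11 (two 2 (by decide) (by decide) (by decide) (by decide))
    have t2 := step (i := 1) (j := 2) (by decide) t1 (Rel.pair 0 _ _ rfl rfl)
    have t9 := step (i := 2) (j := 9) (by decide) t2 (two 2 (by decide) (by decide) (by decide) (by decide))
    have t10 := step (i := 9) (j := 10) (by decide) t9 (Rel.pair 4 _ _ rfl rfl)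
    have t4 := step (i := 10) (j := 4) (by decide) t10 (two 1 (by decide) (by decide) (by decide) (by decide))
    have t3 := step (i := 4) (j := 3) (by decide) t4 (pairc (Rel.pair 1 _ _ rfl rfl))
    intro i
    fin_cases i
    exacts [t0, t1, t2, t3, t4, t5, t6, t7, t8, t9, t10, t11, t12]
  · show Transversal (g := 6) (neg (g := 6) e6)
    have t0 : Rel (g := 6) (neg (g := 6) e6) {0} := Rel.first
    have t6 := step (i := 0) (j := 6) (by decide) t0 (two 2 (by decide) (by decide) (by decide) (by decide))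
    have t5 := step (i := 6) (j := 5) (by decide) t6 (pairc (Rel.pair 2 _ _ rfl rfl))
    have t12 := step (i := 5) (j := 12) (by decide) t5 (two 2 (by decide) (by decide) (by decide) (by decide))
    have t11 := step (i := 12) (j := 11) (by decide) t12 (pairc (Rel.pair 5 _ _ rfl rfl))
    have t1 := step (i := 11) (j := 1) (by decide) t11 (two 2 (by decide) (by decide) (by decide) (by decide))
    have t2 := step (i := 1) (j := 2) (by decide) t1 (Rel.pair 0 _ _ rfl rfl)
    have t8 := step (i := 2) (j := 8) (by decide) t2 (two 1 (by decide) (by decide) (by decide) (by decide))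
    have t7 := step (i := 8) (j := 7) (by decide) t8 (pairc (Rel.pair 3 _ _ rfl rfl))
    have t4 := step (i := 7) (j := 4) (by decide) t7 (two 2 (by decide) (by decide) (by decide) (by decide))
    have t3 := step (i := 4) (j := 3) (by decide) t4 (pairc (Rel.pair 1 _ _ rfl rfl))
    have t10 := step (i := 3) (j := 10) (by decide) t3 (two 2 (by decide) (by decide) (by decide) (by decide))
    have t9 := step (i := 10) (j := 9) (by decide) t10 (pairc (Rel.pair 4 _ _ rfl rfl))
    intro i
    fin_cases i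
    exacts [t0, t1, t2, t3, t4, t5, t6, t7, t8, t9, t10, t11, t12]
  · exact nine_of_list _ [3, 5, 7, 11, 13, 23, 29, 31, 41, 43, 47, 59, 61, 79, 83, 149, 157, 193, 211, 239, 263, 277, 283, 311, 317, 331, 373, 401, 443, 463, 491, 599, 607, 1087, 1301, 1321] 11
      (by
        intro q hq
        fin_cases hq <;> norm_num)
      (by decide +kernel)

end examples

/-- **Theorem.**
(1) Let `a_0 < ... < a_{2 g}` be integers as in `Transversal`, let `F` be a Galois extension of `ℚ` of odd
degree and of odd narrow class number, and let `Γ` be a subgroup of `Gal(F/ℚ)`, with fixed field `E`,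
whose elements preserve the places of `F` above `2` and above all the odd primes at which the clusters of
the `a_i` are not odd of even depth. Then the Jacobian `J` of `y² = ∏ (x - a_i)` is as in `Stable`:
`Ш(J ⊗ M)[2^∞] = 0` and the multiplication by `2` is bijective on `(J ⊗ M)(ℚ)` for all the lattices `M`
with an action of `Gal(F/ℚ)` and without vectors fixed by `Γ`, and `J(F) = J(E) + 2 J(F)`.
(2) Let `J_D` be the quadratic twist of `J` by `D ≠ 0` (if `D < 0`, let `-a` be as in `Transversal`
instead of `a`), and let `E ⊆ F` be layers of the cyclotomic `ℤ₃`-extension of `ℚ`. The assertion holds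
for `J_D` and `Γ = Gal(F/E)` if all the primes `p ≠ 2, 3` with `p² = 1` modulo `9 [E:ℚ]` do not divide `D`
and the clusters of the `a_i` at these `p` are odd of even depth.
(3) This holds for every `D ≠ 0` if the degree of `E` is large enough.
(4) For every genus `g` a positive proportion of the integer tuples `a` with `|a_i| ≤ X` satisfies the
conditions for the twists of both signs.
(5) The examples of genus `1`, ..., `6` satisfy them, and the condition in (2) for `E = ℚ` holds for them
if no prime `p ≠ 2, 3` that is `1` or `-1` modulo `9` divides `D`. -/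
theorem result :
    (∀ (g : ℕ) (a : Fin (2 * g + 1) → ℤ), StrictMono a → Transversal a →
      ∀ (F : Type) [Field F] [NumberField F], OddField F → ∀ Γ : Subgroup (F ≃ₐ[ℚ] F),
        (∀ γ ∈ Γ, ∀ p : ℕ, p.Prime → Preserves γ p ∨ (p ≠ 2 ∧ OddClusters a p)) → Stable Γ a) ∧
    (∀ (g : ℕ) (a : Fin (2 * g + 1) → ℤ), StrictMono a → ∀ D : ℤ, D ≠ 0 →
      (0 < D → Transversal a) → (D < 0 → Transversal (neg a)) →
        ∀ (n : ℕ) (C : Type) [Field C] [NumberField C] [IsCyclotomicExtension {3 ^ (n + 1)} ℚ C]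
          (E F : IntermediateField ℚ C), E ≤ F → Odd (Module.finrank ℚ F) →
          (∀ p : ℕ, Near (Module.finrank ℚ E) p → ¬ (p : ℤ) ∣ D ∧ OddClusters a p) →
            Stable (galOver (algebraMap F C) (E : Set C)) (twist a D)) ∧
    (∀ (g : ℕ) (a : Fin (2 * g + 1) → ℤ), Good a → ∀ D : ℤ, D ≠ 0 → ∃ N : ℕ,
        ∀ (n : ℕ) (C : Type) [Field C] [NumberField C] [IsCyclotomicExtension {3 ^ (n + 1)} ℚ C]
          (E F : IntermediateField ℚ C), E ≤ F → Odd (Module.finrank ℚ F) →
          N ≤ Module.finrank ℚ E →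
            Stable (galOver (algebraMap F C) (E : Set C)) (twist a D)) ∧
    (∀ g : ℕ, ∃ δ : ℝ, 0 < δ ∧ ∃ X₀ : ℕ, ∀ X : ℕ, X₀ ≤ X →
      δ * (X : ℝ) ^ (2 * g + 1) ≤ ({a : Fin (2 * g + 1) → ℤ | (∀ i, |a i| ≤ X) ∧
        Good a}.ncard : ℝ)) ∧
    Nice (g := 1) e1 ∧ Nice (g := 2) e2 ∧ Nice (g := 3) e3 ∧ Nice (g := 4) e4 ∧
      Nice (g := 5) e5 ∧ Nice (g := 6) e6 := by
  refine ⟨fun g a ha ht F _ _ hF Γ h => general ha ht hF fun γ hγ p hp =>
      (h γ hγ p hp).imp_left ns_of_preserves,
    fun g a ha D hD hp hn n C _ _ _ E F hEF hodd h => twists ha hD hp hn n C E F hEF hodd h,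
    fun g a ha D hD => ?_, fun g => ?_, nice1, nice2, nice3, nice4, nice5, nice6⟩
  · obtain ⟨N, hN⟩ := eventually ha.mono hD
    exact ⟨N, fun n C _ _ _ E F hEF hodd hE => twists ha.mono hD (fun _ => ha.pos)
      (fun _ => ha.neg) n C E F hEF hodd (hN _ hE)⟩
  · classical
    obtain ⟨s, hs⟩ : ∃ s : ℕ, g < 2 ^ s := ⟨g, Nat.lt_two_pow_self⟩
    have hsZ : (g : ℤ) < 2 ^ s := by exact_mod_cast hs
    obtain ⟨δ, hδ, X₀, h⟩ := Pool.Agent.Helper891_EG.Pp.prop_of g (Q := Good) (N := 2 ^ (s + 5))
      (r := fun i : Fin (2 * g + 1) => ((min (i : ℕ) (2 * g - i) : ℕ) : ℤ))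
      (fun i => Int.natCast_nonneg _) (fun i => by
        have h1 : (2 : ℤ) ^ s ≤ ((2 ^ (s + 5) : ℕ) : ℤ) := by
          push_cast
          exact pow_le_pow_right₀ (by norm_num) (by omega)
        have h2 : ((min (i : ℕ) (2 * g - i) : ℕ) : ℤ) ≤ g := by
          have : min (i : ℕ) (2 * g - i) ≤ g := by omega
          exact_mod_cast this
        exact h2.trans_lt (hsZ.trans_le h1)) (good_A hs)
    refine ⟨δ, hδ, X₀, fun X hX => (h X hX).trans (le_of_eq ?_)⟩
    rw [← Set.ncard_coe_finset]
    congr 2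
    ext a
    rw [Finset.mem_coe, Finset.mem_filter, Fintype.mem_piFinset, Set.mem_ofPred_eq]
    simp only [Finset.mem_Icc, abs_le]

end Pool.Agent.Results.MP_a43263_nt.AllTwistsTower
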