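import Mathlib
import Pool.Agent.Y723.SJ.Def
import Pool.Agent.Helper891_JO.Va
import Pool.Agent.Helper891_RP.Gen
import Pool.Agent.Helper891_EG.Sp
import Pool.Agent.Helper891_EG.Pq
import Pool.Agent.Helper891_EG.Vc
import Pool.Agent.Helper891_EG.Gr
import Pool.Agent.Y682.XD.Fin
import Pool.Agent.Y682.YQ.Inr
import Pool.Agent.Y419.XD.Ram

/-!
# Twists of Jacobians of every genus: Tate–Shafarevich groups of `J_D ⊗ M` without 2-torsion

`J` is the Jacobian of `y² = (x - a_0) (x - a_1) ... (x - a_{2 g})`, where `a_0 < ... < a_{2 g}` are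
integers, `J_D` is its quadratic twist by `D`, and `M = ℤ^r` is a lattice with an action of the Galois
group of a cyclic field `F` of degree `ℓ^(k+1)`, such that no vector is fixed by the subgroup of order
`ℓ`; for example `F` is a layer of the cyclotomic `ℤ₃`-extension of `ℚ` (and `ℓ = 3`). We prove that
`Ш(J_D ⊗ M)[2^∞] = 0` and that the multiplication by `2` is bijective on `(J_D ⊗ M)(ℚ)`, and that
`J_D(F) = J_D(E) + 2 J_D(F)`, where `E` is the subfield of degree `ℓ^k`, for all `D` in an arithmetic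
progression whose prime factors do not split completely in `F`, if `a` satisfies a
condition at the real place and at the prime `2` (`Transversal`), and at each odd prime that splits
completely in `F` all the clusters of the roots are odd of even depth or there is at most one pair of
roots that are congruent (`Fine`). The progression contains infinitely many primes. For every genus
`g ≥ 1` these conditions hold for a positive proportion of all the tuples `a`, and for all `F` at the
same time.

The last condition allows primes of bad reduction that split completely in `F`. At a prime `p` that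
splits completely and divides exactly one difference `a_i - a_j`, to an odd power, the local conditions
for the `2`-descent over `F` at the places above `p` depend on whether `D` times a unit is a square
modulo `p`; a choice of these classes for all such `p` at the same time such that the Selmer elements
over `F` become invariant under the subgroup of order `ℓ` exists because `2` is a primitive root modulo
`ℓ^(k+1)`, so that the corresponding module over `ℤ/2` is simple.
-/

set_option autoImplicit false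

namespace Pool.Agent.Results.MP_a43263_nt.EveryGenus

open NumberField IsDedekindDomain
open Pool.Agent.Y682 (NCl)
open Pool.Agent.Y723.SJ (Jac pointMap act QB GQ)

/-! ### The abelian varieties `A = J ⊗ M` -/

/-- The action of an integral matrix on `ℤ^r ⊗ G = G^r`. -/
def mat {G : Type} [AddCommGroup G] {r : ℕ} (B : Matrix (Fin r) (Fin r) ℤ) (P : Fin r → G) :
    Fin r → G := fun k => ∑ j, B k j • P j

section tensor

variable {g : ℕ} (a : Fin (2 * g + 1) → ℤ) {r : ℕ} (R : GQ → Matrix (Fin r) (Fin r) ℤ)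

/-- The points of `A = J ⊗ M` over an algebraically closed field `L`, `J` the Jacobian of
`y² = ∏ (x - a i)` and `M = ℤ^r`. -/
abbrev Pts (r : ℕ) (L : Type) [Field L] : Type := Fin r → Jac a L

/-- The action of the Galois group on the points of `A`: `σ` applied to the coordinates, and then the
matrix `R(σ)`, which is the action of `σ` on `M`. -/
noncomputable def actA (σ : GQ) (P : Pts a r QB) : Pts a r QB := mat (R σ) (fun k => act a σ (P k))

/-- `P` is a point of `A` over `ℚ`. -/
def IsRational (P : Pts a r QB) : Prop := ∀ σ : GQ, actA a R σ P = P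

/-- `f` is a continuous cocycle with values in `A`. -/
def IsCocycle (f : GQ → Pts a r QB) : Prop :=
  IsLocallyConstant f ∧ ∀ σ τ : GQ, f (σ * τ) = f σ + actA a R σ (f τ)

/-- `f` is a coboundary. -/
def IsCoboundary (f : GQ → Pts a r QB) : Prop := ∃ P, ∀ σ, f σ = actA a R σ P - P

/-- For every embedding `ι` of the algebraic closures the restriction of `f` to the absolute Galois
group of the completion `K` of `ℚ` is a coboundary: `f σ = τ P - P` for `τ` in this group with
restriction `σ`. -/
def LocTriv (K : Type) [Field K] (f : GQ → Pts a r QB) : Prop :=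
  ∀ ι : QB →+* AlgebraicClosure K, ∃ P : Pts a r (AlgebraicClosure K),
    ∀ (τ : AlgebraicClosure K ≃ₐ[K] AlgebraicClosure K) (σ : GQ), (∀ x, τ (ι x) = ι (σ x)) →
      (fun k => pointMap a ι (f σ k)) =
        mat (R σ) (fun k => pointMap a (τ : AlgebraicClosure K →+* AlgebraicClosure K) (P k)) - P

/-- `f` is a continuous cocycle that is trivial at all the places of `ℚ`; its class is an element of
`Ш(A)`, and this is zero if and only if `f` is a coboundary. -/
def IsShaCocycle (f : GQ → Pts a r QB) : Prop :=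
  IsCocycle a R f ∧ (∀ (p : ℕ) [Fact p.Prime], LocTriv a R ℚ_[p] f) ∧ LocTriv a R ℝ f

/-- `Ш(A)[2^∞] = 0`, and the multiplication by `2` is bijective on `A(ℚ)`. -/
structure TwoTrivial : Prop where
  sha : ∀ f : GQ → Pts a r QB, IsShaCocycle a R f → ∀ k : ℕ,
    IsCoboundary a R (fun σ => 2 ^ k • f σ) → IsCoboundary a R f
  points : ∀ P : Pts a r QB, IsRational a R P → ∃! Q : Pts a r QB, IsRational a R Q ∧ Q + Q = P

end tensor

/-! ### The curves -/

section curves

variable {g : ℕ} (a : Fin (2 * g + 1) → ℤ)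

/-- `S` is a set of an even number of indices, and the numbers `a i`, `i ∈ S`, are closer to each other
at the prime `2` than to the other ones, by a factor of at least `2^5`. -/
structure Cluster (S : Finset (Fin (2 * g + 1))) : Prop where
  even : Even S.card
  near : ∀ i ∈ S, ∀ j ∈ S, ∀ l ∉ S, i ≠ j →
    padicValInt 2 (a i - a l) + 5 ≤ padicValInt 2 (a i - a j)

/-- The sets that are obtained by symmetric differences from `{0}`, the sets `{2 k - 1, 2 k}` for
`1 ≤ k ≤ g`, and the even clusters. -/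
inductive Rel : Finset (Fin (2 * g + 1)) → Prop
  | first : Rel {0}
  | pair (k : ℕ) (i j : Fin (2 * g + 1)) : (i : ℕ) = 2 * k + 1 → (j : ℕ) = 2 * k + 2 → Rel {i, j}
  | cluster (S : Finset (Fin (2 * g + 1))) : Cluster a S → Rel S
  | add (S T : Finset (Fin (2 * g + 1))) : Rel S → Rel T → Rel (symmDiff S T)

/-- All the sets are obtained. -/
def Transversal : Prop := ∀ i, Rel a {i}

/-- All the clusters of the `a i` at `p` have odd cardinality and even depth: if `i ≠ l`, the valuation
of `a i - a l` is even and the number of the `k` such that `a k` is at least as close to `a i` as `a l`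
is odd. (This holds if `p` divides none of the differences.) -/
def OddClusters (p : ℕ) : Prop := ∀ i l : Fin (2 * g + 1), i ≠ l →
  Even (padicValInt p (a i - a l)) ∧ Odd (Finset.univ.filter fun k =>
    k = i ∨ padicValInt p (a i - a l) ≤ padicValInt p (a i - a k)).card

/-- `p` divides at most one of the differences `a i - a j`, `i < j`. -/
def AtMostOne (p : ℕ) : Prop := ∀ i j k l : Fin (2 * g + 1), i < j → k < l →
  (p : ℤ) ∣ a i - a j → (p : ℤ) ∣ a k - a l → i = k ∧ j = l

/-- The condition at the odd primes. -/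
def Fine (p : ℕ) : Prop := OddClusters a p ∨ AtMostOne a p

end curves

/-- The integer tuples `a_0 < ... < a_{2 g}` that satisfy the condition at `2` and at the real place and
the conditions at all the odd primes. -/
structure Admissible {g : ℕ} (a : Fin (2 * g + 1) → ℤ) : Prop where
  mono : StrictMono a
  trans : Transversal a
  fine : ∀ p : ℕ, p.Prime → p ≠ 2 → Fine a p

/-! ### The fields -/

/-- `p` splits completely in `F`. -/
def Splits (F : Type) [Field F] [NumberField F] (p : ℕ) : Prop :=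
  {v : HeightOneSpectrum (𝓞 F) | (p : 𝓞 F) ∈ v.asIdeal}.ncard = Module.finrank ℚ F

/-- `F` is a cyclic extension of `ℚ` of degree `ℓ^(k+1)`, where `ℓ` is an odd prime and `2` is a
primitive root modulo `ℓ^(k+1)`; its narrow class number is odd, `2` is inert in `F`, and no prime
divisor of `n` splits completely in `F`. -/
structure CyclicField (ℓ k n : ℕ) (F : Type) [Field F] [NumberField F] : Prop where
  prime : ℓ.Prime
  odd : ℓ ≠ 2
  root : orderOf (2 : ZMod (ℓ ^ (k + 1))) = Nat.totient (ℓ ^ (k + 1))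
  cyc : IsCyclic (F ≃ₐ[ℚ] F)
  deg : Module.finrank ℚ F = ℓ ^ (k + 1)
  ncl : Odd (Nat.card (NCl F))
  inert : (Ideal.span {((2 : ℕ) : 𝓞 F)}).IsPrime
  cond : ∀ p : ℕ, p.Prime → p ∣ n → ¬ Splits F p

/-- `R` is an action of the Galois group of `ℚ` on `M = ℤ^r` that is trivial on the automorphisms which
fix the image of `F`, and only the zero vector is fixed by all the automorphisms `σ` such that `σ^ℓ` is
trivial on the image of `F`. (If the degree of `F` is `ℓ`, these are all the automorphisms, and the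
condition is that there are no invariants.) -/
structure Lattice (ℓ : ℕ) {F : Type} [Field F] (i : F →+* QB) {r : ℕ}
    (R : GQ → Matrix (Fin r) (Fin r) ℤ) : Prop where
  mul : ∀ σ τ, R (σ * τ) = R σ * R τ
  triv : ∀ σ : GQ, (∀ x, σ (i x) = i x) → R σ = 1
  noinv : ∀ x : Fin r → ℤ,
    (∀ σ : GQ, (∀ z, (σ ^ ℓ) (i z) = i z) → (R σ).mulVec x = x) → x = 0

/-- Let `E` be the field of the elements of `F` that are fixed by the automorphisms of order `1` and `ℓ`.
For all the lattices `M` of the field `F`, `Ш(J ⊗ M)[2^∞] = 0` and the multiplication by `2` is bijective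
on the group of the rational points of `J ⊗ M`. Moreover `J(F) = J(E) + 2 J(F)`. -/
structure TrivialOver (ℓ : ℕ) {g : ℕ} (a : Fin (2 * g + 1) → ℤ) (F : Type) [Field F] : Prop where
  tensor : ∀ (i : F →+* QB) (r : ℕ) (R : GQ → Matrix (Fin r) (Fin r) ℤ), Lattice ℓ i R →
    TwoTrivial a R
  growth : ∀ (i : F →+* QB) (P : Jac a QB), (∀ σ : GQ, (∀ x, σ (i x) = i x) → act a σ P = P) →
    ∃ Q S : Jac a QB, (∀ σ : GQ, (∀ x, (σ ^ ℓ) (i x) = i x) → act a σ Q = Q) ∧
      (∀ σ : GQ, (∀ x, σ (i x) = i x) → act a σ S = S) ∧ P = Q + (S + S)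

/-- There is an arithmetic progression `D = c` modulo `N`, `c` and `N` coprime, such that the primes in
it do not split completely in `F`, and such that the assertion holds for the quadratic twists `J_D` for
all the odd `D > 0` in the progression whose prime factors do not split completely in `F`. -/
def ManyTwists (ℓ n : ℕ) {g : ℕ} (a : Fin (2 * g + 1) → ℤ) (F : Type) [Field F] [NumberField F] :
    Prop :=
  ∃ N c : ℕ, 0 < N ∧ n ∣ N ∧ c ≡ 2 [MOD n] ∧ Nat.Coprime c N ∧
    (∀ q : ℕ, q.Prime → q ≡ c [MOD N] → ¬ Splits F q) ∧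
    ∀ D : ℕ, Odd D → D ≡ c [MOD N] → (∀ q : ℕ, q.Prime → q ∣ D → ¬ Splits F q) →
      TrivialOver ℓ (fun j => (D : ℤ) * a j) F

section transport

variable {g : ℕ} {a : Fin (2 * g + 1) → ℤ}

/-- the identity -/
noncomputable def eJ (a : Fin (2 * g + 1) → ℤ) (L : Type) [Field L] :
    Pool.Agent.Y723.HJ.Jac a L ≃+ Jac a L where
  toFun x := x
  invFun x := x
  left_inv _ := rfl
  right_inv _ := rfl
  map_add' _ _ := rfl

lemma eJ_map {F L : Type} [Field F] [Field L] (φ : F →+* L) (x : Jac a F) :
    (eJ a L).symm (pointMap a φ x) = Pool.Agent.Y723.HJ.jmap a φ ((eJ a F).symm x) := rfl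

lemma eJ_act (σ : GQ) (x : Jac a QB) :
    (eJ a QB).symm (act a σ x) = Pool.Agent.Y723.HJ.act a σ ((eJ a QB).symm x) := rfl

/-- the identity on tuples -/
noncomputable def eD (a : Fin (2 * g + 1) → ℤ) {r : ℕ} (L : Type) [Field L] :
    (Fin r → Jac a L) ≃+ (Fin r → Pool.Agent.Y723.HJ.Jac a L) :=
  AddEquiv.piCongrRight (fun _ => (eJ a L).symm)

lemma eD_apply {r : ℕ} {L : Type} [Field L] (P : Fin r → Jac a L) (k : Fin r) :
    eD a L P k = (eJ a L).symm (P k) := rfl

lemma eD_mat {r : ℕ} {L : Type} [Field L] (B : Matrix (Fin r) (Fin r) ℤ) (P : Fin r → Jac a L) :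
    eD a L (mat B P) = Pool.Agent.Helper891_JO.mat B (eD a L P) := by
  have h := Pool.Agent.Helper891_JO.mat_map (AddEquiv.toAddMonoidHom (eJ a L).symm) B P
  funext k
  exact (congrFun h k).symm

lemma eD_act {r : ℕ} {R : GQ → Matrix (Fin r) (Fin r) ℤ} (σ : GQ) (P : Pts a r QB) :
    eD a QB (actA a R σ P) = Pool.Agent.Helper891_JO.actM a R σ (eD a QB P) := by
  unfold actA Pool.Agent.Helper891_JO.actM
  rw [eD_mat]
  rfl

lemma coc_of {r : ℕ} {R : GQ → Matrix (Fin r) (Fin r) ℤ} {f : GQ → Pts a r QB}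
    (h : IsCocycle a R f) : Pool.Agent.Helper891_JO.IsCoc a R (fun σ => eD a QB (f σ)) := by
  refine ⟨h.1.comp _, fun σ τ => ?_⟩
  show eD a QB (f (σ * τ)) = eD a QB (f σ) + Pool.Agent.Helper891_JO.actM a R σ (eD a QB (f τ))
  rw [h.2, map_add, eD_act]

lemma loc_of {r : ℕ} {R : GQ → Matrix (Fin r) (Fin r) ℤ} {f : GQ → Pts a r QB} {K : Type}
    [Field K] (h : LocTriv a R K f) :
    Pool.Agent.Helper891_JO.LocT a R K (fun σ => eD a QB (f σ)) := by
  intro ι
  obtain ⟨P, hP⟩ := h ι
  refine ⟨eD a _ P, fun τ σ hτ => ?_⟩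
  have h1 := congrArg (eD a (AlgebraicClosure K)) (hP τ σ hτ)
  rw [map_sub, eD_mat] at h1
  exact h1

lemma cob_of {r : ℕ} {R : GQ → Matrix (Fin r) (Fin r) ℤ} {f : GQ → Pts a r QB}
    (h : IsCoboundary a R f) : Pool.Agent.Helper891_JO.IsCob a R (fun σ => eD a QB (f σ)) := by
  obtain ⟨P, hP⟩ := h
  refine ⟨eD a QB P, fun σ => ?_⟩
  show eD a QB (f σ) = _
  rw [hP, map_sub, eD_act]

lemma of_cob {r : ℕ} {R : GQ → Matrix (Fin r) (Fin r) ℤ} {f : GQ → Pts a r QB}
    (h : Pool.Agent.Helper891_JO.IsCob a R (fun σ => eD a QB (f σ))) : IsCoboundary a R f := by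
  obtain ⟨P, hP⟩ := h
  refine ⟨(eD a QB).symm P, fun σ => ?_⟩
  apply (eD a QB).injective
  rw [map_sub, eD_act, AddEquiv.apply_symm_apply]
  exact hP σ

end transport

section proof

variable {g : ℕ} {a : Fin (2 * g + 1) → ℤ}

lemma spn_of (h : Transversal a) : Pool.Agent.Helper891_JO.Spn a := by
  intro P h0 hp hc hs i
  have key : ∀ S, Rel a S → P S := by
    intro S hS
    induction hS with
    | first => exact h0
    | pair k i j hi hj => exact hp k i j hi hj
    | cluster S hS => exact hc S ⟨hS.even, hS.near⟩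
    | add S T _ _ h1 h2 => exact hs S T h1 h2
  exact key _ (h i)

lemma ratio_zpowers {F : Type} [Field F] [NumberField F] [IsGalois ℚ F] {η : F ≃ₐ[ℚ] F}
    (h : Pool.Agent.Helper891_EG.Ratio η a) {γ : F ≃ₐ[ℚ] F} (hγ : γ ∈ Subgroup.zpowers η) :
    Pool.Agent.Helper891_EG.Ratio γ a := by
  obtain ⟨n, rfl⟩ := (mem_powers_iff_mem_zpowers).2 hγ
  intro e he hR hP i
  simp only
  induction n with
  | zero => exact ⟨1, by rw [pow_zero, AlgEquiv.one_apply, one_pow, mul_one]⟩
  | succ n ih =>
    obtain ⟨y, hy⟩ := ih ⟨n, rfl⟩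
    obtain ⟨z, hz⟩ := h e he hR hP i
    refine ⟨y * (η ^ n) z, ?_⟩
    rw [pow_succ, AlgEquiv.mul_apply, hz, map_mul, map_pow, hy]
    ring

/-- the vanishing -/
theorem of_ratio {F : Type} [Field F] [NumberField F] [IsGalois ℚ F] {l k : ℕ} (hl : l.Prime)
    (hl2 : l ≠ 2) (hd : Module.finrank ℚ F = l ^ (k + 1)) {γ : F ≃ₐ[ℚ] F}
    (hγ : ∀ x, x ∈ Subgroup.zpowers γ) (ho : orderOf γ = l ^ (k + 1))
    (ha : Function.Injective a) (hrat : Pool.Agent.Helper891_EG.Ratio (γ ^ l ^ k) a) :
    TrivialOver l a F := by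
  have hlo : Odd l := hl.odd_of_ne_two hl2
  have hdo : Odd (Module.finrank ℚ F) := by rw [hd]; exact hlo.pow
  have hηl : (γ ^ l ^ k) ^ l = 1 := by
    rw [← pow_mul, ← pow_succ, ← ho]
    exact pow_orderOf_eq_one γ
  have hΓ : ∀ η ∈ Subgroup.zpowers (γ ^ l ^ k), Pool.Agent.Helper891_EG.Ratio η a := fun η hη =>
    ratio_zpowers hrat hη
  have hmem : ∀ (i : F →+* QB) (σ : GQ), (∀ z, (σ ^ l) (i z) = i z) ↔
      Pool.Agent.Helper891_RP.resA i σ ∈ Subgroup.zpowers (γ ^ l ^ k) := by
    intro i σ
    have h1 : (∀ z, (σ ^ l) (i z) = i z) ↔ (Pool.Agent.Helper891_RP.resA i σ) ^ l = 1 := by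
      rw [← map_pow]
      exact (Pool.Agent.Helper891_JO.mem_HQ i).symm
    rw [h1]
    constructor
    · intro h
      obtain ⟨n, hn⟩ := Pool.Agent.Helper891_EG.pow_of_tor hl hγ ho h
      rw [← hn]
      exact Subgroup.npow_mem_zpowers _ n
    · rintro h
      obtain ⟨n, hn⟩ := Subgroup.mem_zpowers_iff.1 h
      rw [← hn, ← zpow_natCast, zpow_comm, zpow_natCast, hηl, one_zpow]
  refine ⟨fun i r R hR => ?_, fun i P hP => ?_⟩
  · have hRH : ∀ σ ∈ Pool.Agent.Helper891_JO.HQ i, R σ = 1 := fun σ hσ =>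
      hR.triv σ ((Pool.Agent.Helper891_JO.mem_HQ i).1 hσ)
    have hinv : ∀ x : Fin r → ℤ, (∀ σ, Pool.Agent.Helper891_RP.resA i σ ∈
        Subgroup.zpowers (γ ^ l ^ k) → (R σ).mulVec x = x) → x = 0 := fun x hx =>
      hR.noinv x fun σ hσ => hx σ ((hmem i σ).1 hσ)
    refine ⟨fun f hf k' hk => ?_, fun P hP => ?_⟩
    · apply of_cob
      refine Pool.Agent.Helper891_EG.Vc.sha_zero i hdo ha hΓ hR.mul hRH hinv
        (coc_of hf.1) (fun p _ => loc_of (hf.2.1 p)) (loc_of hf.2.2) k' ?_
      have h1 := cob_of hk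
      have e : (fun σ => 2 ^ k' • eD a QB (f σ)) = fun σ => eD a QB (2 ^ k' • f σ) := by
        funext σ
        rw [map_nsmul]
      rw [e]
      exact h1
    · obtain ⟨Q, ⟨h1, h2⟩, h3⟩ := Pool.Agent.Helper891_EG.Vc.pts_two i hdo ha hΓ hR.mul hRH
        hinv (eD a QB P) (fun σ => by rw [← eD_act, hP σ])
      refine ⟨(eD a QB).symm Q, ⟨fun σ => ?_, ?_⟩, ?_⟩
      · apply (eD a QB).injective
        rw [eD_act, AddEquiv.apply_symm_apply]
        exact h1 σ
      · apply (eD a QB).injective
        rw [map_add, AddEquiv.apply_symm_apply]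
        exact h2
      · rintro Q' ⟨h4, h5⟩
        apply (eD a QB).injective
        rw [AddEquiv.apply_symm_apply]
        exact h3 _ ⟨fun σ => by rw [← eD_act, h4 σ], by rw [← map_add, h5]⟩
  · obtain ⟨Q, S, hQ, hS, hPQ⟩ := Pool.Agent.Helper891_EG.Gr.growth i hdo ha hΓ
      (P := (eJ a QB).symm P) (fun σ hσ => by
        rw [← eJ_act, hP σ ((Pool.Agent.Helper891_JO.mem_HQ i).1 hσ)])
    refine ⟨eJ a QB Q, eJ a QB S, fun σ hσ => ?_, fun σ hσ => ?_, ?_⟩
    · apply (eJ a QB).symm.injective
      rw [eJ_act, AddEquiv.symm_apply_apply]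
      exact hQ σ ((hmem i σ).1 hσ)
    · apply (eJ a QB).symm.injective
      rw [eJ_act, AddEquiv.symm_apply_apply]
      exact hS σ ((Pool.Agent.Helper891_JO.mem_HQ i).2 hσ)
    · apply (eJ a QB).symm.injective
      rw [map_add, map_add, AddEquiv.symm_apply_apply, AddEquiv.symm_apply_apply]
      exact hPQ

lemma gal_sub (n : ℕ) [NeZero n] (M : Type) [Field M] [NumberField M]
    [IsCyclotomicExtension {n} ℚ M] (F : IntermediateField ℚ M) :
    @IsGalois ℚ _ F _ DivisionRing.toRatAlgebra := by
  have hab : IsAbelianGalois ℚ M := IsCyclotomicExtension.isAbelianGalois {n} ℚ M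
  have h1 : @IsAbelianGalois ℚ F _ _ F.algebra' :=
    @IsAbelianGalois.of_algHom ℚ F M _ _ F.algebra' _ _ F.val hab
  have e : F.algebra' = (DivisionRing.toRatAlgebra : Algebra ℚ F) := Subsingleton.elim _ _
  rw [← e]
  exact h1.toIsGalois

lemma onep_of_prime {F : Type} [Field F] [NumberField F] {p : ℕ} (hp : p.Prime)
    (h : (Ideal.span {((p : ℕ) : 𝓞 F)}).IsPrime) : Pool.Agent.Helper891_JO.OneP F p := by
  intro v w hv hw
  obtain ⟨u, -, hu⟩ := Pool.Agent.Y682.XT.place_unique hp h
  rw [(hu v).1 hv, (hu w).1 hw]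

/-- the general theorem -/
theorem general {l k n : ℕ} (hn : Odd n) {C : Type} [Field C] [NumberField C]
    [IsCyclotomicExtension {n} ℚ C] (F : IntermediateField ℚ C) (hF : CyclicField l k n F)
    (ha : StrictMono a) (ht : Transversal a)
    (hfine : ∀ p : ℕ, p.Prime → p ≠ 2 → Splits F p → Fine a p) : ManyTwists l n a F := by
  have hn0 : NeZero n := ⟨hn.pos.ne'⟩
  have hgal : IsGalois ℚ F := gal_sub n C F
  obtain ⟨γ, hγ⟩ := hF.cyc
  have ho : orderOf γ = l ^ (k + 1) := by
    rw [orderOf_eq_card_of_forall_mem_zpowers hγ, IsGalois.card_aut_eq_finrank, hF.deg]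
  have hlo : Odd l := hF.prime.odd_of_ne_two hF.odd
  have hdo : Odd (Module.finrank ℚ F) := by rw [hF.deg]; exact hlo.pow
  have := Pool.Agent.Helper891_RP.treal hdo
  have hηl : (γ ^ l ^ k) ^ l = 1 := by
    rw [← pow_mul, ← pow_succ, ← ho]
    exact pow_orderOf_eq_one γ
  have hns : ∀ p : ℕ, ¬ Splits F p → Pool.Agent.Helper891_EG.NS (γ ^ l ^ k) p := fun p hp =>
    Pool.Agent.Helper891_EG.ns_of_not_split hF.prime hγ ho hp
  have hone : ∀ p : ℕ, Pool.Agent.Helper891_JO.OneP F p → ¬ Splits F p := fun p hp =>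
    Pool.Agent.Helper891_EG.not_split_of_onep hF.prime hF.deg hp
  have h2 : ¬ Splits F 2 := hone 2 (onep_of_prime Nat.prime_two hF.inert)
  have hcomm : ∀ b : F ≃ₐ[ℚ] F, Commute (γ ^ l ^ k) b := by
    intro b
    obtain ⟨m, rfl⟩ := (mem_powers_iff_mem_zpowers).2 (hγ b)
    exact (Commute.refl γ).pow_pow _ m
  obtain ⟨N, c, hN0, hnN, hco, hc2, hD⟩ := Pool.Agent.Helper891_EG.progression (F := F) (a := a)
    hF.ncl hdo hηl (Pool.Agent.Helper891_EG.simp_of_prime _ hF.prime hF.odd hγ
      (by rw [IsGalois.card_aut_eq_finrank, hF.deg]) hF.root) hcomm (spn_of ht) ha (hns 2 h2)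
    (fun p hp => by
      by_cases hs : Splits F p
      · right
        exact hfine p hp (fun h => h2 (h ▸ hs)) hs
      · exact Or.inl (hns p hs)) n hn (fun p hp hpn => hns p (hF.cond p hp hpn))
  have h2n : Nat.Coprime 2 n := (Nat.coprime_two_left).2 hn
  refine ⟨N, c, hN0, hnN, hc2, hco, ?_, ?_⟩
  · intro q hq hqc
    apply hone q
    apply onep_of_prime hq
    refine Pool.Agent.Y682.XT.prime_of_gen (L := C) (K := F) Pool.Agent.Y692.XT.inert hq
      (c := ZMod.unitOfCoprime 2 h2n) ?_
      (Pool.Agent.Y682.XT.gen_of_prime Pool.Agent.Y692.XT.inert Nat.prime_two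
        (ZMod.coe_unitOfCoprime _ _) hF.inert)
    rw [ZMod.coe_unitOfCoprime]
    exact ((ZMod.natCast_eq_natCast_iff _ _ _).2 ((hqc.of_dvd hnN).trans hc2)).symm
  · intro D hDo hDc hDs
    have hD0 : (0 : ℤ) < D := by exact_mod_cast hDo.pos
    refine of_ratio hF.prime hF.odd hF.deg hγ ho ?_ (hD (D : ℤ) hD0 ?_ ?_ ?_)
    · intro i j hij
      exact ha.injective (mul_left_cancel₀ hD0.ne' hij)
    · intro h
      have h3 : 2 ∣ D := by exact_mod_cast h
      exact (Nat.not_even_iff_odd.2 hDo) (even_iff_two_dvd.2 h3)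
    · exact (Int.natCast_modEq_iff).2 hDc
    · intro p hp hpD
      exact hns p (hDs p hp (by exact_mod_cast hpD))

end proof

section layers

/-- two is a primitive root -/
lemma root_three (k : ℕ) : orderOf (2 : ZMod (3 ^ (k + 1))) = Nat.totient (3 ^ (k + 1)) := by
  have h1 : orderOf ((2 : ZMod (3 ^ (k + 1))) ^ 2) = 3 ^ k := by
    have h := ZMod.orderOf_one_add_mul_prime Nat.prime_three (by norm_num) 1 (by norm_num) k
    rw [← h]
    congr 1
    push_cast
    norm_num
  have h3 : Even (orderOf (2 : ZMod (3 ^ (k + 1)))) := by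
    have h4 := pow_orderOf_eq_one (2 : ZMod (3 ^ (k + 1)))
    have h5 := congrArg (ZMod.castHom (dvd_pow_self 3 (Nat.succ_ne_zero k)) (ZMod 3)) h4
    rw [map_pow, map_one] at h5
    have h6 : (ZMod.castHom (dvd_pow_self 3 (Nat.succ_ne_zero k)) (ZMod 3)) 2 = -1 := by
      rw [map_ofNat]
      decide
    rw [h6] at h5
    by_contra h7
    rw [Nat.not_even_iff_odd] at h7
    rw [h7.neg_one_pow] at h5
    exact absurd h5 (by decide)
  obtain ⟨m, hm⟩ := h3
  have h5 : orderOf (2 : ZMod (3 ^ (k + 1))) = 2 * m := by omega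
  rw [orderOf_pow' _ two_ne_zero, h5, Nat.gcd_eq_right (dvd_mul_right 2 m), Nat.mul_div_cancel_left m two_pos] at h1
  rw [h5, h1, Nat.totient_prime_pow_succ Nat.prime_three]
  ring

/-- quotients of cyclic Galois groups -/
lemma cyc_gen (C F : Type) [Field C] [NumberField C] [Field F] [NumberField F] [Algebra F C]
    [IsGalois ℚ F] (h : IsCyclic (C ≃ₐ[ℚ] C)) (hn : Normal ℚ C) : IsCyclic (F ≃ₐ[ℚ] F) := by
  have : IsScalarTower ℚ F C := IsScalarTower.of_algebraMap_eq fun x =>
    DFunLike.congr_fun (Subsingleton.elim (algebraMap ℚ C)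
      ((algebraMap F C).comp (algebraMap ℚ F))) x
  exact isCyclic_of_surjective (AlgEquiv.restrictNormalHom (F := ℚ) (K₁ := C) F)
    (AlgEquiv.restrictNormalHom_surjective (F := ℚ) (K₁ := F) C)

/-- the layers -/
theorem layer (k n : ℕ) (C : Type) [Field C] [NumberField C]
    [IsCyclotomicExtension {3 ^ (n + 1)} ℚ C] (F : IntermediateField ℚ C)
    (hd : Module.finrank ℚ F = 3 ^ (k + 1)) : CyclicField 3 k (3 ^ (n + 1)) F := by
  have hz : NeZero (3 ^ (n + 1)) := ⟨pow_ne_zero _ (by norm_num)⟩
  have hodd : Odd (Module.finrank ℚ F) := by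
    rw [hd]
    exact Odd.pow (by decide)
  have hgal : IsGalois ℚ F := gal_sub (3 ^ (n + 1)) C F
  obtain ⟨h2, -, hN⟩ := Pool.Agent.Y682.XD.three_hyp n C F hodd
  have hcu : IsCyclic (ZMod (3 ^ (n + 1)))ˣ :=
    ZMod.isCyclic_units_of_prime_pow 3 Nat.prime_three (by norm_num) (n + 1)
  have hcC : IsCyclic (C ≃ₐ[ℚ] C) := by
    have e := IsCyclotomicExtension.autEquivPow C
      (Polynomial.cyclotomic.irreducible_rat (n := 3 ^ (n + 1)) (Nat.pos_of_ne_zero hz.out))
    exact isCyclic_of_surjective e.symm e.symm.surjective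
  have hnC : Normal ℚ C := (IsCyclotomicExtension.isGalois {3 ^ (n + 1)} ℚ C).to_normal
  refine ⟨Nat.prime_three, by norm_num, root_three k, cyc_gen C F hcC hnC, hd, hN, h2, ?_⟩
  intro p hp hpn
  have h3 : p = 3 := (Nat.prime_dvd_prime_iff_eq hp Nat.prime_three).1 (hp.dvd_of_dvd_pow hpn)
  subst h3
  exact Pool.Agent.Helper891_EG.not_split_of_onep Nat.prime_three hd
    (fun v w hv hw => Pool.Agent.Y419.XD.s_ram 3 n Nat.prime_three C F v w hv hw)

end layers

section tuples

variable {g : ℕ} {a : Fin (2 * g + 1) → ℤ}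

lemma rel_all {S : Finset (Fin (2 * g + 1))} (h : ∀ i ∈ S, Rel a {i}) : Rel a S := by
  classical
  induction S using Finset.induction_on with
  | empty =>
    have h1 := Rel.add _ _ (Rel.first (a := a)) (Rel.first (a := a))
    rwa [symmDiff_self] at h1
  | insert i S hi ih =>
    have h1 := Rel.add _ _ (h i (Finset.mem_insert_self _ _))
      (ih fun j hj => h j (Finset.mem_insert_of_mem hj))
    have e : symmDiff {i} S = insert i S := by
      ext x
      rw [Finset.mem_symmDiff, Finset.mem_singleton, Finset.mem_insert]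
      constructor
      · rintro (⟨h2, -⟩ | ⟨h2, -⟩)
        · exact Or.inl h2
        · exact Or.inr h2
      · rintro (rfl | h2)
        · exact Or.inl ⟨rfl, hi⟩
        · exact Or.inr ⟨h2, fun h3 => hi (h3 ▸ h2)⟩
    rwa [e] at h1

lemma rel_diff {S : Finset (Fin (2 * g + 1))} {i : Fin (2 * g + 1)} (hi : i ∈ S) (h : Rel a S)
    (h1 : ∀ j ∈ S, j ≠ i → Rel a {j}) : Rel a {i} := by
  classical
  have h2 : Rel a (S.erase i) := rel_all fun j hj => h1 j (Finset.mem_of_mem_erase hj)
    (Finset.ne_of_mem_erase hj)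
  have h3 := Rel.add _ _ h h2
  have e : symmDiff S (S.erase i) = {i} := by
    ext x
    rw [Finset.mem_symmDiff, Finset.mem_singleton, Finset.mem_erase]
    constructor
    · rintro (⟨h4, h5⟩ | ⟨⟨-, h4⟩, h5⟩)
      · by_contra h6
        exact h5 ⟨h6, h4⟩
      · exact absurd h4 h5
    · rintro rfl
      exact Or.inl ⟨hi, fun h4 => h4.1 rfl⟩
  rwa [e] at h3

lemma trans_of_adm (h : Pool.Agent.Helper891_EG.Pq.Adm g a) : Transversal a := by
  classical
  have key : ∀ m : ℕ, ∀ i : Fin (2 * g + 1), (i : ℕ) = m → Rel a {i} := by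
    intro m
    induction m using Nat.strong_induction_on with
    | _ m ih =>
      intro i him
      rcases Nat.even_or_odd m with ⟨k, hk⟩ | ⟨k, hk⟩
      · rcases Nat.eq_zero_or_pos k with rfl | hk0
        · have e : i = 0 := Fin.ext (by rw [him, hk]; rfl)
          rw [e]
          exact Rel.first
        · have hlt : 2 * (k - 1) + 1 < 2 * g + 1 := by
            have := i.2
            omega
          have hp := Rel.pair (a := a) (k - 1) ⟨2 * (k - 1) + 1, hlt⟩ i rfl (by omega)
          refine rel_diff (S := {⟨2 * (k - 1) + 1, hlt⟩, i}) (by simp) hp ?_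
          intro j hj hji
          rw [Finset.mem_insert, Finset.mem_singleton] at hj
          rcases hj with rfl | rfl
          · exact ih (2 * (k - 1) + 1) (by omega) _ rfl
          · exact absurd rfl hji
      · have hkg : k + 1 ≤ g := by
          have := i.2
          omega
        set S : Finset (Fin (2 * g + 1)) := Finset.univ.filter fun j => (j : ℕ) < 2 * (k + 1) with hS
        have hcard : S.card = 2 * (k + 1) := by
          have e : S = (Finset.Iio (⟨2 * (k + 1), by omega⟩ : Fin (2 * g + 1))) := by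
            ext x
            rw [hS, Finset.mem_filter, Finset.mem_Iio, Fin.lt_def]
            simp
          rw [e, Fin.card_Iio]
        have hc : Cluster a S := by
          refine ⟨by rw [hcard]; exact even_two_mul _, fun x hx y hy l hl hxy => ?_⟩
          rw [hS, Finset.mem_filter] at hx hy hl
          exact h.clus (k + 1) (by omega) hkg x y l hx.2 hy.2
            (by
              by_contra h1
              exact hl ⟨Finset.mem_univ _, not_le.1 h1⟩) hxy
        refine rel_diff (S := S) (by rw [hS, Finset.mem_filter]; exact ⟨Finset.mem_univ _, by omega⟩)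
          (Rel.cluster S hc) ?_
        intro j hj hji
        rw [hS, Finset.mem_filter] at hj
        have hjm : (j : ℕ) < m := by
          have h1 : (j : ℕ) ≠ i := fun h1 => hji (Fin.ext h1)
          omega
        exact ih j hjm j rfl
  exact fun i => key i i rfl

open Classical in
theorem proportion (g : ℕ) (hg : 1 ≤ g) : ∃ δ : ℝ, 0 < δ ∧ ∃ X₀ : ℕ, ∀ X : ℕ, X₀ ≤ X →
    δ * (X : ℝ) ^ (2 * g + 1) ≤
      (((Fintype.piFinset fun _ : Fin (2 * g + 1) => Finset.Icc (-(X : ℤ)) X).filter
        fun a => Admissible a).card : ℝ) := by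
  obtain ⟨δ, hδ, X₀, h⟩ := Pool.Agent.Helper891_EG.Pq.proportion g hg
  refine ⟨δ, hδ, X₀, fun X hX => (h X hX).trans ?_⟩
  refine Nat.cast_le.2 (Finset.card_le_card ?_)
  intro a ha
  rw [Finset.mem_filter] at ha ⊢
  exact ⟨ha.1, ha.2.mono, trans_of_adm ha.2, fun p hp hp2 => ha.2.good p hp hp2⟩

end tuples

/-- **Theorem.**
(1) Let `F` be a cyclic subfield of degree `ℓ^(k+1)` of the field `C` of the `n`-th roots of unity, `n`
odd, as in `CyclicField`, and let `a_0 < ... < a_{2 g}` be integers as in `Transversal` such that for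
every odd prime `p` that splits completely in `F` the clusters of the `a_i` at `p` are odd of even depth
or `p` divides at most one difference. Then there is an arithmetic progression, which contains infinitely
many primes, as in `ManyTwists`: for all the odd `D > 0` in it whose prime factors do not split
completely in `F`, `Ш(J_D ⊗ M)[2^∞] = 0` and the multiplication by `2` is bijective on `(J_D ⊗ M)(ℚ)`
for all the lattices `M` of the field `F`; moreover `J_D(F) = J_D(E) + 2 J_D(F)`, where `E ⊆ F` is the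
subfield of degree `ℓ^k`.
(2) The hypotheses on `F` hold for all the layers `F ≠ ℚ` of the cyclotomic `ℤ₃`-extension of `ℚ`.
(3) For every `g ≥ 1` the hypotheses on `a` hold, for all `F` at the same time, for a positive proportion
of the integer tuples `a` with `|a_i| ≤ X`. -/
theorem result :
    (∀ (ℓ k n : ℕ), Odd n → ∀ (C : Type) [Field C] [NumberField C] [IsCyclotomicExtension {n} ℚ C]
      (F : IntermediateField ℚ C), CyclicField ℓ k n F →
        ∀ (g : ℕ) (a : Fin (2 * g + 1) → ℤ), StrictMono a → Transversal a →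
          (∀ p : ℕ, p.Prime → p ≠ 2 → Splits F p → Fine a p) → ManyTwists ℓ n a F) ∧
    (∀ (k n : ℕ) (C : Type) [Field C] [NumberField C] [IsCyclotomicExtension {3 ^ (n + 1)} ℚ C]
      (F : IntermediateField ℚ C), Module.finrank ℚ F = 3 ^ (k + 1) →
        CyclicField 3 k (3 ^ (n + 1)) F) ∧
    (∀ g : ℕ, 1 ≤ g → ∃ δ : ℝ, 0 < δ ∧ ∃ X₀ : ℕ, ∀ X : ℕ, X₀ ≤ X →
      δ * (X : ℝ) ^ (2 * g + 1) ≤ ({a : Fin (2 * g + 1) → ℤ | (∀ i, |a i| ≤ X) ∧
        Admissible a}.ncard : ℝ)) := by
  refine ⟨fun l k n hn C _ _ _ F hF g a ha ht hfine => general hn F hF ha ht hfine,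
    fun k n C _ _ _ F hd => layer k n C F hd, fun g hg => ?_⟩
  classical
  obtain ⟨δ, hδ, X₀, h⟩ := proportion g hg
  refine ⟨δ, hδ, X₀, fun X hX => (h X hX).trans (le_of_eq ?_)⟩
  rw [← Set.ncard_coe_finset]
  congr 2
  ext a
  rw [Finset.mem_coe, Finset.mem_filter, Fintype.mem_piFinset, Set.mem_ofPred_eq]
  simp only [Finset.mem_Icc, abs_le]

end Pool.Agent.Results.MP_a43263_nt.EveryGenus
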